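import Pool.Agent.U192.PE.Iit

/-!
Abundance for varieties dominated by a product `X × Y` such that the map to `W × X` is injective.
-/

set_option autoImplicit false
set_option linter.overlappingInstances false
set_option linter.unusedSectionVars false

open FF IntermediateField Pool.Agent.W619.PQ Pool.Agent.W603.LV Pool.Agent.Y172
open Pool.Agent.W602.GT (Divisorial DerReg IsPluri KodGe)
open Pool.Agent.W619.TW (HasIndep)
open Pool.Agent.Y174 (PairSec PairKod PairNum IsPull IsPullFib LiesOn)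
open Pool.Agent.U192.PB (pf cz pf_change pf_pluri up pol_over closed_in indep_pow basis_over)
open Pool.Agent.U192.NM (dg pol)
open Pool.Agent.U192.PN (IsProd DivBd fib_of num_fib easy_pair divBd_pull)

namespace Pool.Agent.U192.PE

variable {K L : Type} [Field K] [Field L] [Algebra ℂ K] [Algebra ℂ L] [Algebra K L]
  [IsScalarTower ℂ K L] [FiniteDimensional K L] (U T : IntermediateField ℂ L)
  [Algebra.EssFiniteType ℂ U] [Algebra.EssFiniteType ℂ T]

/-- the upper bound for the numerical dimension -/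
theorem num_prod {d r a : ℕ} (hsup : U ⊔ T = ⊤) (hU : Algebra.trdeg ℂ U = d)
    (hT : Algebra.trdeg ℂ T = (r + 1 : ℕ)) (hL : Algebra.trdeg ℂ L = (d + (r + 1) : ℕ))
    {δ : Place ℂ K → ℝ} (hbd : DivBd (d + (r + 1)) δ)
    {δV : Place ℂ L → ℝ} (hδV : IsPull δ δV) {δT : Place ℂ T → ℝ} (hδT0 : ∀ P, 0 ≤ δT P)
    (hprod : IsProd U T (d + (r + 1)) δV δT) (hYn : PairNum ℂ T (r + 1) δT a) :
    PairNum ℂ K (d + (r + 1)) δ (d + a) := by
  have hessL : Algebra.EssFiniteType ℂ L := ess_prod U T hsup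
  have hessK : Algebra.EssFiniteType ℂ K := Pool.Agent.TH466.QG.ess_below (K := L)
  have hδV0 : ∀ Q : Place ℂ L, 0 ≤ δV Q := by
    intro Q
    obtain ⟨e, P, hP⟩ := Pool.Agent.W73.PG.PULL.exists_over' (K := K) Q
    rw [hδV P Q e hP]
    exact le_max_left _ _
  have hnumV := num_fib hsup hU hT hL hδT0 hprod hYn
  have hnK : Algebra.trdeg ℂ K = (d + (r + 1) : ℕ) := Pool.Agent.Y184.NT.trdeg_below (K := L) hL
  have hgen : IntermediateField.adjoin U (Set.range (algebraMap L L)) = ⊤ := by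
    rw [eq_top_iff]
    intro z _
    exact IntermediateField.subset_adjoin _ _ ⟨z, rfl⟩
  have hclU : ∀ z : L, IsAlgebraic U z → z ∈ U := fun z hz => closed_in hsup hU hT hL hz
  have hnumL : PairNum ℂ L (d + (r + 1)) δV (d + a) :=
    easy_pair (L := U) (Λ := U) (F := L) inferInstance inferInstance hgen
      (fun z hz => ⟨⟨z, hclU z hz.isAlgebraic⟩, rfl⟩) hU hL (fib_of hδV0)
      (divBd_pull hδV hbd) hnumV
  exact Pool.Agent.Y174.pair_num inferInstance hnK hδV hnumL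

/-- **Abundance for pairs dominated by products**, when the map to `W × X` is injective. -/
theorem abu_inj {d r a m : ℕ} (hm : 1 ≤ m) (hsup : U ⊔ T = ⊤) (hU : Algebra.trdeg ℂ U = d)
    (hT : Algebra.trdeg ℂ T = (r + 1 : ℕ)) (hL : Algebra.trdeg ℂ L = (d + (r + 1) : ℕ))
    (hKU : IntermediateField.adjoin K (U : Set L) = ⊤)
    {δ : Place ℂ K → ℝ} (hδ0 : ∀ P, 0 ≤ δ P) (hbd : DivBd (d + (r + 1)) δ)
    {δV : Place ℂ L → ℝ} (hδV : IsPull δ δV) {δT : Place ℂ T → ℝ} (hδT0 : ∀ P, 0 ≤ δT P)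
    (hδT1 : ∀ P, Divisorial (r + 1) P → δT P ≤ 1) (hprod : IsProd U T (d + (r + 1)) δV δT)
    (hge : BdGe U T (d + (r + 1)) δ δT)
    (hYn : PairNum ℂ T (r + 1) δT a) (hYk : PairKod ℂ T (r + 1) δT a)
    {κ : ℕ} (X : Fin κ → Finset U) (hX : IntermediateField.adjoin ℂ (⋃ i, (X i : Set U)) = ⊤)
    {α : Fin (d + 1) → (Fin d → Derivation ℂ U U) → U}
    (hα : ∀ j, SecU K d m X {1} (α j))
    {G0 : Fin d → Derivation ℂ U U} (hG0 : α 0 G0 ≠ 0)
    (hind : AlgebraicIndependent ℂ fun j : Fin d => α j.succ G0 / α 0 G0) :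
    PairKod ℂ K (d + (r + 1)) δ (d + a) ∧ PairNum ℂ K (d + (r + 1)) δ (d + a) :=
  ⟨kod_prod U T hsup hU hT hL hKU X hX hδ0 hδT1 hge hm hα hG0 hind hYk,
    num_prod U T hsup hU hT hL hbd hδV hδT0 hprod hYn⟩

end Pool.Agent.U192.PE
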