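import Pool.Agent.U192.PE.Abu

/-!
Effective bounds for pairs dominated by products.
-/

set_option autoImplicit false
set_option linter.overlappingInstances false
set_option linter.unusedSectionVars false

open FF IntermediateField Pool.Agent.W619.PQ Pool.Agent.W603.LV Pool.Agent.Y172
open Pool.Agent.W602.GT (Divisorial DerReg IsPluri KodGe)
open Pool.Agent.W619.TW (HasIndep)
open Pool.Agent.Y174 (PairSec PairKod PairNum IsPull IsPullFib LiesOn resPl)
open Pool.Agent.U192.PB (pf cz pf_change pf_pluri up pol_over closed_in indep_pow basis_over)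
open Pool.Agent.U192.NM (dg pol)
open Pool.Agent.U192.PN (IsProd DivBd fib_of num_fib easy_pair divBd_pull exists_prod prod_ord
  HorReg PReg PairNeg horReg_ge)

namespace Pool.Agent.U192.PE

variable {K L : Type} [Field K] [Field L] [Algebra ℂ K] [Algebra ℂ L] [Algebra K L]
  [IsScalarTower ℂ K L] [FiniteDimensional K L] (U T : IntermediateField ℂ L)
  [Algebra.EssFiniteType ℂ U] [Algebra.EssFiniteType ℂ T]

/-- **Products vanish along the horizontal ramification.** -/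
theorem hor_prod {d r m0 N0 : ℕ} (hm0 : 1 ≤ m0) (hN0 : 1 ≤ N0) (hsup : U ⊔ T = ⊤)
    (hU : Algebra.trdeg ℂ U = d)
    (hT : Algebra.trdeg ℂ T = (r + 1 : ℕ)) (hL : Algebra.trdeg ℂ L = (d + (r + 1) : ℕ))
    {δ : Place ℂ K → ℝ}
    {δV : Place ℂ L → ℝ} (hδV : IsPull δ δV) {δT : Place ℂ T → ℝ} (hδT0 : ∀ P, 0 ≤ δT P)
    (hδT1 : ∀ P, Divisorial (r + 1) P → δT P ≤ 1) (hprod : IsProd U T (d + (r + 1)) δV δT)
    (hYn : PairNum ℂ T (r + 1) δT 0)
    {η : (Fin (r + 1) → Derivation ℂ T T) → T} (hη : PairSec ℂ T (r + 1) δT {1} N0 0 η)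
    {α0 : (Fin d → Derivation ℂ U U) → U} (hα0 : IsPluri m0 α0)
    (hreg : ∀ P : Place ℂ U, Divisorial d P → ∀ G : Fin d → Derivation ℂ U U,
      (∀ i, DerReg P (G i)) → α0 G ≠ 0 → 0 ≤ P.ord (α0 G))
    (hK : ¬ PairNeg ℂ K (d + (r + 1)) δ)
    {x : Fin d → U} {t : Fin (r + 1) → T} {Ex : Fin d → Derivation ℂ U U}
    {Et : Fin (r + 1) → Derivation ℂ T T} (hx : IsTranscendenceBasis ℂ x)
    (ht : IsTranscendenceBasis ℂ t) (hEx : ∀ i j, Ex i (x j) = if i = j then 1 else 0)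
    (hEt : ∀ i j, Et i (t j) = if i = j then 1 else 0) (hαne : α0 Ex ≠ 0) (hηne : η Et ≠ 0)
    (m : ℕ) {a : U} (ha : a ≠ 0) :
    HorReg δ U (d + (r + 1)) (m * N0) (pf x t (m * N0) a ((η Et) ^ m)) := by
  classical
  have hessL : Algebra.EssFiniteType ℂ L := ess_prod U T hsup
  have hessK : Algebra.EssFiniteType ℂ K := Pool.Agent.TH466.QG.ess_below (K := L)
  have hδV0 : ∀ Q : Place ℂ L, 0 ≤ δV Q := by
    intro Q
    obtain ⟨e, P, hP⟩ := Pool.Agent.W73.PG.PULL.exists_over' (K := K) Q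
    rw [hδV P Q e hP]
    exact le_max_left _ _
  obtain ⟨δ', hδ'1, hδ'2⟩ := exists_prod U T δV δT
  have hδ'0 : ∀ Q : Place ℂ L, 0 ≤ δ' Q := by
    intro Q
    by_cases h1 : (∃ z ∈ U, Q.ord z ≠ 0) ∨ ∀ z ∈ T, Q.ord z = 0
    · rw [hδ'2 Q h1]
      exact hδV0 Q
    · push Not at h1
      obtain ⟨h2, z, hz, hz0⟩ := h1
      obtain ⟨e, v, hv⟩ := exists_over (K := T) Q ⟨⟨z, hz⟩, hz0⟩
      rw [hδ'1 Q h2 v e hv]
      exact le_max_left _ _
  have hδ'ge : ∀ Q : Place ℂ L, Divisorial (d + (r + 1)) Q → δV Q ≤ δ' Q := by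
    intro Q hQ
    by_cases h1 : (∃ z ∈ U, Q.ord z ≠ 0) ∨ ∀ z ∈ T, Q.ord z = 0
    · rw [hδ'2 Q h1]
    · push Not at h1
      obtain ⟨h2, z, hz, hz0⟩ := h1
      obtain ⟨e, v, hv⟩ := exists_over (K := T) Q ⟨⟨z, hz⟩, hz0⟩
      rw [hδ'1 Q h2 v e hv]
      exact (hprod Q hQ h2).2 v e hv
  have hprod' : IsProd U T (d + (r + 1)) δ' δT := by
    intro Q hQ hQU
    refine ⟨fun hQT => ?_, fun v e hv => (hδ'1 Q hQU v e hv).le⟩
    rw [hδ'2 Q (Or.inr hQT)]
    exact (hprod Q hQ hQU).1 hQT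
  have hnum' := num_fib hsup hU hT hL hδT0 hprod' hYn
  have hgen : IntermediateField.adjoin U (Set.range (algebraMap L L)) = ⊤ := by
    rw [eq_top_iff]
    intro z _
    exact IntermediateField.subset_adjoin _ _ ⟨z, rfl⟩
  have hclU : ∀ z : L, IsAlgebraic U z → z ∈ U := fun z hz => closed_in hsup hU hT hL hz
  -- the form
  have hα' : IsPluri (m0 * N0) fun G => α0 G ^ N0 := pluri_pow hα0 N0
  have hβ' : IsPluri (m0 * N0) fun G => η G ^ m0 := by
    have h1 := pluri_pow hη.1 m0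
    rwa [mul_comm] at h1
  have hmN0 : (0 : ℝ) ≤ ((m0 * N0 : ℕ) : ℝ) := Nat.cast_nonneg _
  have hPR : PReg (d + (r + 1)) (m0 * N0) δ' (pf x t (m0 * N0) (α0 Ex ^ N0) (η Et ^ m0)) := by
    intro Q hQ G hG
    by_cases hne : pf x t (m0 * N0) (α0 Ex ^ N0) (η Et ^ m0) G = 0
    · exact Or.inl hne
    right
    rcases prod_ord (α := fun G => α0 G ^ N0) (β := fun G => η G ^ m0) hU hT hL hα' hβ'
      (w := fun _ => 0) (fun P hP G hG hne => by
        have h1 : α0 G ≠ 0 := fun h => hne (by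
          change α0 G ^ N0 = 0
          rw [h, zero_pow (by omega)])
        have h2 := hreg P hP G hG h1
        rw [P.ord_pow]
        positivity) hδT1 (fun P hP G hG => by
        rcases hη.2 P hP G hG with h | ⟨s, hs, hs0, h⟩
        · left
          change η G ^ m0 = 0
          rw [h, zero_pow (by omega)]
        · right
          rw [P.ord_pow]
          have h1 := mul_le_mul_of_nonneg_left h (Nat.cast_nonneg (α := ℝ) m0)
          push_cast at h1 ⊢
          linarith) hx ht hEx hEt hQ hG hne with ⟨P, e, hP, hPd, h1⟩ | ⟨hU0, ⟨hT0, h1⟩ |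
        ⟨P, e, hP, hPd, h1⟩⟩
    · have h2 : (0 : ℝ) ≤ ((m0 * N0 : ℕ) : ℝ) * (e - 1) := by
        refine mul_nonneg hmN0 ?_
        have : (1 : ℝ) ≤ e := by exact_mod_cast hP.1
        linarith
      have h4 := mul_nonneg hmN0 (hδ'0 Q)
      simp only [Int.cast_zero, mul_zero, add_zero] at h1
      linarith
    · have h4 := mul_nonneg hmN0 (hδ'0 Q)
      have h5 : (0 : ℝ) ≤ Q.ord (pf x t (m0 * N0) (α0 Ex ^ N0) (η Et ^ m0) G) := by
        exact_mod_cast h1
      linarith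
    · have h2 := hδ'1 Q hU0 P e hP
      have h3 : 1 - (e : ℝ) * (1 - δT P) ≤ δ' Q := by
        rw [h2]
        exact le_max_right _ _
      have h4 := mul_le_mul_of_nonneg_left h3 hmN0
      linarith
  have hHR := horReg_ge (K := K) (L := L) (Λ := U) (F := L) U (d := d) (r := r)
    (m0 := m0 * N0) hU hL hgen hclU (δ := δ) (δV := δ') (fun P Q e hP hQ => by
      rw [← hδV P Q e hP]
      exact hδ'ge Q hQ) (fib_of hδ'0) hnum' hK (Nat.mul_pos hm0 hN0)
    (pf_pluri x t _ _ _) hPR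
  -- comparison
  intro P Q e hQP hQ hQU G hG
  by_cases hne : pf x t (m * N0) a (η Et ^ m) G = 0
  · exact Or.inl hne
  right
  rcases Nat.eq_zero_or_pos m with hm | hm
  · subst hm
    have h1 : pf x t (0 * N0) a (η Et ^ 0) G = (a : L) := by
      unfold pf
      rw [zero_mul, pow_zero, pow_zero, one_mul]
      simp
    rw [h1, hQU _ a.2]
    simp
  have hD : (Matrix.of fun i j => G i (cz x t j)).det ≠ 0 := by
    intro h0
    apply hne
    unfold pf
    rw [h0, zero_pow (Nat.mul_pos hm hN0).ne', zero_mul]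
  have hordg : ∀ (q : ℕ) {b : U}, b ≠ 0 → (Q.ord (pf x t (q * N0) b (η Et ^ q) G) : ℝ) =
      q * (N0 * Q.ord (Matrix.of fun i j => G i (cz x t j)).det + Q.ord ((η Et : T) : L)) := by
    intro q b hb
    unfold pf
    have hb' : (b : L) ≠ 0 := by rwa [Ne, ZeroMemClass.coe_eq_zero]
    have hη' : ((η Et : T) : L) ≠ 0 := by rwa [Ne, ZeroMemClass.coe_eq_zero]
    have hc : ((η Et ^ q : T) : L) = ((η Et : T) : L) ^ q := by push_cast; rfl
    rw [hc, Q.ord_mul (pow_ne_zero _ hD) (mul_ne_zero hb' (pow_ne_zero _ hη')),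
      Q.ord_mul hb' (pow_ne_zero _ hη'), hQU _ b.2, Q.ord_pow, Q.ord_pow]
    push_cast
    ring
  have hα0' : α0 Ex ^ N0 ≠ 0 := pow_ne_zero _ hαne
  have hne0 : pf x t (m0 * N0) (α0 Ex ^ N0) (η Et ^ m0) G ≠ 0 := by
    unfold pf
    refine mul_ne_zero (pow_ne_zero _ hD) (mul_ne_zero ?_ ?_)
    · rwa [Ne, ZeroMemClass.coe_eq_zero]
    · rw [Ne, ZeroMemClass.coe_eq_zero]
      exact pow_ne_zero _ hηne
  have h1 := (hHR P Q e hQP hQ hQU G hG).resolve_left hne0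
  rw [hordg m0 hα0'] at h1
  rw [hordg m ha]
  have hm0' : (0 : ℝ) < m0 := by exact_mod_cast hm0
  obtain ⟨B, hB⟩ : ∃ B : ℝ, B = N0 * Q.ord (Matrix.of fun i j => G i (cz x t j)).det +
    Q.ord ((η Et : T) : L) := ⟨_, rfl⟩
  rw [← hB] at h1 ⊢
  have h2 : (m0 : ℝ) * (N0 * (e - 1)) ≤ m0 * (B + N0 * e * δ P) := by
    push_cast at h1
    linarith
  have h3 := le_of_mul_le_mul_left h2 hm0'
  have h4 := mul_le_mul_of_nonneg_left h3 (Nat.cast_nonneg (α := ℝ) m)
  push_cast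
  linarith

/-- **Effective bounds for pairs dominated by products.** -/
theorem eff_prod {d r N0 : ℕ} (hN0 : 1 ≤ N0) (hsup : U ⊔ T = ⊤) (hU : Algebra.trdeg ℂ U = d)
    (hT : Algebra.trdeg ℂ T = (r + 1 : ℕ)) (hL : Algebra.trdeg ℂ L = (d + (r + 1) : ℕ))
    {κ : ℕ} (X : Fin κ → Finset U) (hX : IntermediateField.adjoin ℂ (⋃ i, (X i : Set U)) = ⊤)
    (SU : Finset U) (hSU : ∃ s ∈ SU, s ≠ 0) :
    ∃ Z : Finset K, (SU = {1} → Z = {1}) ∧
    ∀ (δ : Place ℂ K → ℝ) (δV : Place ℂ L → ℝ) (δT : Place ℂ T → ℝ), (∀ P, 0 ≤ δ P) →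
    IsPull δ δV → (∀ P, 0 ≤ δT P) → (∀ P, Divisorial (r + 1) P → δT P ≤ 1) →
    IsProd U T (d + (r + 1)) δV δT → PairNum ℂ T (r + 1) δT 0 →
    (∃ η : (Fin (r + 1) → Derivation ℂ T T) → T, PairSec ℂ T (r + 1) δT {1} N0 0 η ∧
      ∃ D, η D ≠ 0) → ¬ PairNeg ℂ K (d + (r + 1)) δ →
    (SU = {1} ∨ ∃ (m0 : ℕ) (α0 : (Fin d → Derivation ℂ U U) → U), 1 ≤ m0 ∧ IsPluri m0 α0 ∧
      (∀ P : Place ℂ U, Divisorial d P → ∀ G : Fin d → Derivation ℂ U U,
      (∀ i, DerReg P (G i)) → α0 G ≠ 0 → 0 ≤ P.ord (α0 G)) ∧ ∃ D, α0 D ≠ 0) →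
    ∀ m N : ℕ, 1 ≤ m → HasIndep ℂ U d N (SecU K d (m * N0) X SU) →
    HasIndep ℂ K (d + (r + 1)) N
      (PairSec ℂ K (d + (r + 1)) δ Z (m * N0 * Module.finrank K L) 1) := by
  classical
  have hessL : Algebra.EssFiniteType ℂ L := ess_prod U T hsup
  have hessK : Algebra.EssFiniteType ℂ K := Pool.Agent.TH466.QG.ess_below (K := L)
  obtain ⟨x, hx⟩ := Pool.Agent.W636.PG.exists_basis ℂ U d hU
  obtain ⟨t, ht⟩ := Pool.Agent.W636.PG.exists_basis ℂ T (r + 1) hT
  obtain ⟨Ex, hEx⟩ := Pool.Agent.W636.PG.exists_duals ℂ U d x hx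
  obtain ⟨Et, hEt⟩ := Pool.Agent.W636.PG.exists_duals ℂ T (r + 1) t ht
  obtain ⟨D, hD⟩ := Pool.Agent.W636.PG.exists_duals ℂ L (d + (r + 1)) (cz x t)
    (Pool.Agent.Y174.basis_append hx (basis_over hsup hU hL ht))
  obtain ⟨s1, hs1, hs10⟩ := hSU
  have hone : (1 : T) ∈ ({1} : Finset T) := Finset.mem_singleton_self _
  obtain ⟨Z, hZ1, hZ⟩ := norm_ineq_base (K := K) U (up U X) (adjoin_up U hX) (SS U T SU {1})
    (by
      intro z hz
      unfold SS at hz
      rw [Set.Finite.mem_toFinset] at hz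
      obtain ⟨s, hs, t, ht, rfl⟩ := hz
      rw [Finset.mem_coe, Finset.mem_singleton] at ht
      rw [ht]
      have : (s : L) * ((1 : T) : L) = (s : L) := by simp
      change (s : L) * ((1 : T) : L) ∈ U
      rw [this]
      exact s.2)
    ⟨_, mem_SS U T hs1 hone, mul_ne_zero (by rwa [Ne, ZeroMemClass.coe_eq_zero]) (by simp)⟩
  refine ⟨Z, fun h => hZ1 (by rw [h, SS_one]), ?_⟩
  rintro δ δV δT hδ0 hδV hδT0 hδT1 hprod hYn ⟨η, hη, Dη, hDη⟩ hK hcase m N hm ⟨α, hαi, hα⟩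
  have hηne : η Et ≠ 0 := by
    intro h0
    apply hDη
    have h1 : η Dη = _ := pluri_coord ht hEt hη.1 Dη
    rw [h1, h0, mul_zero]
  have hαne : ∀ l, α l Ex ≠ 0 := by
    intro l h0
    apply hαi.ne_zero l
    funext G
    have h1 : α l G = _ := pluri_coord hx hEx (hα l).1 G
    rw [h1, h0, mul_zero]
    rfl
  have hηm : PairSec ℂ T (r + 1) δT {1} (m * N0) 1 (fun G => η G ^ m) := by
    refine ⟨by
      have h1 := pluri_pow hη.1 m
      rwa [mul_comm] at h1, fun P hP G hG => ?_⟩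
    rcases hη.2 P hP G hG with h | ⟨s, hs, hs0, h⟩
    · left
      change η G ^ m = 0
      rw [h, zero_pow (by omega)]
    · refine Or.inr ⟨s, hs, hs0, ?_⟩
      rw [Finset.mem_singleton] at hs
      rw [hs, P.ord_one] at h ⊢
      rw [P.ord_pow]
      have h1 := mul_le_mul_of_nonneg_left h (Nat.cast_nonneg (α := ℝ) m)
      push_cast at h1 ⊢
      linarith
  -- the vertical condition does not need the boundary of `Y` at the horizontal divisors
  have hver : ∀ l, ∀ (P : Place ℂ K) (Q : Place ℂ L) (e : ℕ), Over Q P e →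
      Divisorial (d + (r + 1)) Q → (∃ z ∈ U, Q.ord z ≠ 0) →
      ∀ c : ℕ, (∀ z ∈ U, (c : ℤ) ∣ Q.ord z) →
      ∀ G : Fin (d + (r + 1)) → Derivation ℂ L L, (∀ i, DerReg Q (G i)) →
      pf x t (m * N0) (α l Ex) (η Et ^ m) G = 0 ∨ ∃ s ∈ SS U T SU {1}, s ≠ 0 ∧
        ((m * N0 : ℕ) : ℝ) * (c - 1) +
          (∑ i, 2 * ((m * N0 : ℕ) : ℤ) * ((dg K (up U X) i : ℤ) - 1) * pol (up U X i) Q : ℤ) +
          Q.ord s ≤ Q.ord (pf x t (m * N0) (α l Ex) (η Et ^ m) G) +
            ((m * N0 : ℕ) : ℝ) * e * δ P := by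
    intro l P Q e hQP hQ hnc c hc G hG
    by_cases hne : pf x t (m * N0) (α l Ex) (η Et ^ m) G = 0
    · exact Or.inl hne
    right
    have hm0 : (0 : ℝ) ≤ ((m * N0 : ℕ) : ℝ) := Nat.cast_nonneg _
    obtain ⟨w, hw⟩ : ∃ w : Place ℂ U → ℤ, ∀ P, w P = ∑ i, 2 * ((m * N0 : ℕ) : ℤ) *
        ((dg K (up U X) i : ℤ) - 1) * pol (X i) P := ⟨_, fun _ => rfl⟩
    obtain ⟨s, hs, hs0, s', hs', hs0', ⟨P', e', hP', hPd', h1⟩ | ⟨hU0, -⟩⟩ :=
      prod_tw (α := α l) (β := fun G => η G ^ m) hU hT hL (hα l).1 hηm.1 (w := w)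
        ⟨s1, hs1, hs10⟩ ⟨1, hone, one_ne_zero⟩ (fun P hP G hG => by
          rw [hw]
          exact (hα l).2 P hP G hG) hδT1 (fun P hP G hG => by
          rcases hηm.2 P hP G hG with h | ⟨s, hs, hs0, h⟩
          · exact Or.inl h
          · refine Or.inr ⟨s, hs, hs0, ?_⟩
            rwa [Nat.cast_one, one_mul] at h) hx ht hEx hEt hQ hG hne
    · have h6 : (0 : ℝ) ≤ ((m * N0 : ℕ) : ℝ) * e * δ P :=
        mul_nonneg (mul_nonneg hm0 (Nat.cast_nonneg _)) (hδ0 P)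
      refine ⟨(s : L) * (s' : L), mem_SS U T hs hs', mul_ne_zero
        (by rwa [Ne, ZeroMemClass.coe_eq_zero]) (by rwa [Ne, ZeroMemClass.coe_eq_zero]), ?_⟩
      obtain ⟨π, hπ0, hπ⟩ := P'.surj
      have h2 : Q.ord (π : L) = e' * P'.ord π := hP'.2 π
      rw [hπ, mul_one] at h2
      have h3 := hc π π.2
      rw [h2] at h3
      have h4 : c ≤ e' := Nat.le_of_dvd hP'.1 (by exact_mod_cast h3)
      have h4r : (c : ℝ) ≤ e' := by exact_mod_cast h4
      have h5 := mul_le_mul_of_nonneg_left (sub_le_sub_right h4r 1) hm0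
      have h7 : ((∑ i, 2 * ((m * N0 : ℕ) : ℤ) * ((dg K (up U X) i : ℤ) - 1) *
          pol (up U X i) Q : ℤ) : ℝ) = e' * w P' := by
        have h8 : ∑ i, 2 * ((m * N0 : ℕ) : ℤ) * ((dg K (up U X) i : ℤ) - 1) *
            pol (up U X i) Q = e' * w P' := by
          rw [hw, Finset.mul_sum]
          refine Finset.sum_congr rfl fun i _ => ?_
          unfold up
          rw [pol_over hP']
          push_cast
          ring
        rw [h8]
        push_cast
        ring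
      have h8 : (Q.ord ((s : L) * (s' : L)) : ℝ) = Q.ord (s : L) + Q.ord (s' : L) := by
        rw [Q.ord_mul (by rwa [Ne, ZeroMemClass.coe_eq_zero])
          (by rwa [Ne, ZeroMemClass.coe_eq_zero])]
        push_cast
        rfl
      rw [h8, h7]
      linarith
    · obtain ⟨z, hz, hz0⟩ := hnc
      exact absurd (hU0 z hz) hz0
  refine hZ δ (d + (r + 1)) (m * N0) N hL
    (fun l => pf x t (m * N0) (α l Ex) (η Et ^ m)) (fun l => pf_pluri x t _ _ _) hver
    (fun l => ?_) ?_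
  · rcases hcase with h | ⟨m0, α0, hm0, hα0, hreg, Dα, hDα⟩
    · subst h
      refine hor_prod U T (m0 := m * N0) (Nat.mul_pos hm hN0) hN0 hsup hU hT hL hδV hδT0 hδT1
        hprod hYn hη (hα l).1 (fun P hP G hG hne => ?_) hK hx ht hEx hEt (hαne l) hηne m (hαne l)
      obtain ⟨s, hs, hs0, h1⟩ := ((hα l).2 P hP G hG).resolve_left hne
      rw [Finset.mem_singleton] at hs
      rw [hs, P.ord_one, add_zero] at h1
      refine le_trans (Finset.sum_nonneg fun i _ => ?_) h1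
      have h2 : 0 < dg K (up U X) i := by
        unfold dg
        exact Module.finrank_pos
      have h3 : (0 : ℤ) ≤ (dg K (up U X) i : ℤ) - 1 := by omega
      positivity
    · refine hor_prod U T hm0 hN0 hsup hU hT hL hδV hδT0 hδT1
        hprod hYn hη hα0 hreg hK hx ht hEx hEt ?_ hηne m (hαne l)
      intro h0
      apply hDα
      have h1 : α0 Dα = _ := pluri_coord hx hEx hα0 Dα
      rw [h1, h0, mul_zero]
  · have h1 : LinearIndependent ℂ fun i => α i Ex := values_indep (fun l => (hα l).1) hαi hx hEx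
    rw [Fintype.linearIndependent_iff] at h1 ⊢
    intro g hg
    refine h1 g ?_
    have h5 := congrFun hg D
    rw [Finset.sum_apply] at h5
    have hη0 : ((η Et ^ m : T) : L) ≠ 0 := by
      rw [Ne, ZeroMemClass.coe_eq_zero]
      exact pow_ne_zero _ hηne
    have h6 : (((∑ i, g i • α i Ex : U) : L)) * ((η Et ^ m : T) : L) = 0 := by
      rw [AddSubmonoidClass.coe_finsetSum, Finset.sum_mul]
      refine Eq.trans (Finset.sum_congr rfl fun i _ => ?_) h5
      rw [Pi.smul_apply, pf_val U T hD]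
      have h7 : ((g i • α i Ex : U) : L) = g i • (α i Ex : L) := rfl
      rw [h7, smul_mul_assoc]
    have h8 := (mul_eq_zero.1 h6).resolve_right hη0
    rwa [ZeroMemClass.coe_eq_zero] at h8

end Pool.Agent.U192.PE
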