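import Pool.Agent.U192.PN.Img

/-!
The Iitaka fibration of the pairs which are dominated by fibre spaces.
-/

set_option autoImplicit false
set_option linter.overlappingInstances false
set_option linter.unusedSectionVars false

open FF Pool.Agent.W602.GT Pool.Agent.W603.LV Pool.Agent.W619.PQ Pool.Agent.Y172
open Pool.Agent.Y174 (PairSec PairKod PairNum IsPull IsPullFib LiesOn)

namespace Pool.Agent.U192.PE

open Pool.Agent.U192.PN (PReg ratio_mem pairSec_mono)

/-- the ratios of the sections of the multiples of `K_W + Δ` -/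
def ratios (K : Type) [Field K] [Algebra ℂ K] (n : ℕ) (δ : Place ℂ K → ℝ) : Set K :=
  {x | ∃ (m : ℕ) (ω ω' : (Fin n → Derivation ℂ K K) → K) (D : Fin n → Derivation ℂ K K),
    1 ≤ m ∧ PairSec ℂ K n δ {1} m 0 ω ∧ PairSec ℂ K n δ {1} m 0 ω' ∧ ω D ≠ 0 ∧
    x = ω' D / ω D}

section

variable {A B : Type} [Field A] [Field B] [Algebra ℂ A] [Algebra ℂ B]

theorem alg_map (φ : A →ₐ[ℂ] B) {F1 : IntermediateField ℂ A} {F2 : IntermediateField ℂ B}
    (h : F1.map φ ≤ F2) {z : A} (hz : IsAlgebraic F1 z) : IsAlgebraic F2 (φ z) := by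
  let f : F1 →+* F2 := ((φ.comp F1.val).codRestrict F2.toSubalgebra (fun x =>
    h (by
      rw [IntermediateField.mem_map]
      exact ⟨x, x.2, rfl⟩))).toRingHom
  exact hz.ringHom_of_comp_eq f φ.toRingHom (RingHom.injective f) (RingHom.ext fun _ => rfl)

theorem alg_comap (φ : A →ₐ[ℂ] B) {F1 : IntermediateField ℂ A} {z : A}
    (hz : IsAlgebraic (F1.map φ) (φ z)) : IsAlgebraic F1 z := by
  let f : F1 →+* F1.map φ := ((φ.comp F1.val).codRestrict (F1.map φ).toSubalgebra (fun x => by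
    change φ x ∈ F1.map φ
    rw [IntermediateField.mem_map]
    exact ⟨x, x.2, rfl⟩)).toRingHom
  refine hz.of_ringHom_of_comp_eq f φ.toRingHom ?_ (RingHom.injective _)
    (RingHom.ext fun _ => rfl)
  rintro ⟨y, hy⟩
  rw [IntermediateField.mem_map] at hy
  obtain ⟨x, hx, rfl⟩ := hy
  exact ⟨⟨x, hx⟩, rfl⟩

end

section

variable {K L Λ F : Type} [Field K] [Field L] [Field Λ] [Field F] [Algebra ℂ K] [Algebra ℂ L]
  [Algebra K L] [IsScalarTower ℂ K L] [FiniteDimensional K L]
  [Algebra.EssFiniteType ℂ K] [Algebra.EssFiniteType ℂ L] (E : IntermediateField ℂ L)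
  [Algebra E Λ] [Algebra Λ F] [Algebra L F] [IsScalarTower E Λ F] [IsScalarTower E L F]
  [Algebra ℂ Λ] [Algebra ℂ F] [IsScalarTower ℂ Λ F] [IsScalarTower ℂ L F]
  [IsScalarTower ℂ E Λ]

/-- **The ratios of the sections downstairs** are functions on the base. -/
theorem ratio_down {d r m : ℕ} (hE : Algebra.trdeg ℂ E = d)
    (hn : Algebra.trdeg ℂ L = (d + (r + 1) : ℕ)) [Algebra.IsAlgebraic E Λ]
    (hgenF : IntermediateField.adjoin Λ (Set.range (algebraMap L F)) = ⊤)
    (hcl : ∀ z : L, IsAlgebraic E z → z ∈ E)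
    {δ : Place ℂ K → ℝ} {δV : Place ℂ L → ℝ} {δF : Place Λ F → ℝ}
    (hδV : ∀ (P : Place ℂ K) (Q : Place ℂ L) (e : ℕ), Over Q P e → Divisorial (d + (r + 1)) Q →
      max 0 (1 - e * (1 - δ P)) ≤ δV Q)
    (hδF : IsPullFib δV δF) (hnum : PairNum Λ F (r + 1) δF 0) (hm : 1 ≤ m)
    {ω ω' : (Fin (d + (r + 1)) → Derivation ℂ K K) → K}
    (hω : PairSec ℂ K (d + (r + 1)) δ {1} m 0 ω) (hω' : PairSec ℂ K (d + (r + 1)) δ {1} m 0 ω')
    {D : Fin (d + (r + 1)) → Derivation ℂ K K} (hD : ω D ≠ 0) :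
    algebraMap K L (ω' D / ω D) ∈ E := by
  classical
  have hnK : Algebra.trdeg ℂ K = (d + (r + 1) : ℕ) := Pool.Agent.Y184.NT.trdeg_below (K := L) hn
  obtain ⟨y, Dy, hy, hDy⟩ := exists_crd hnK
  choose D' hD' using fun i => exists_lift (L := L) hnK (Dy i)
  have hyL : IsTranscendenceBasis ℂ (fun j => algebraMap K L (y j)) := hy.algebraMap_comp
  have hDL := lift_dual hDy hD'
  have hdet : (Matrix.of fun a b => D' a (algebraMap K L (y b)) :
      Matrix (Fin (d + (r + 1))) (Fin (d + (r + 1))) L).det = 1 := by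
    have h1 : (Matrix.of fun a b => D' a (algebraMap K L (y b)) :
        Matrix (Fin (d + (r + 1))) (Fin (d + (r + 1))) L) = 1 := by
      ext i j
      rw [Matrix.of_apply, Matrix.one_apply]
      exact hDL i j
    rw [h1, Matrix.det_one]
  obtain ⟨δ0, hδ0⟩ := Pool.Agent.Y174.exists_pull (K := K) (L := L) δ
  have hpull : ∀ {s : (Fin (d + (r + 1)) → Derivation ℂ K K) → K},
      PairSec ℂ K (d + (r + 1)) δ {1} m 0 s →
      IsPluri (k := ℂ) (K := L) m (fun D => (Matrix.of fun a b => D a (algebraMap K L (y b)) :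
        Matrix (Fin (d + (r + 1))) (Fin (d + (r + 1))) L).det ^ m * algebraMap K L (s Dy)) ∧
      PReg (d + (r + 1)) m δV (fun D => (Matrix.of fun a b => D a (algebraMap K L (y b)) :
        Matrix (Fin (d + (r + 1))) (Fin (d + (r + 1))) L).det ^ m * algebraMap K L (s Dy)) := by
    intro s hs
    have h0 := Pool.Agent.Y174.pair_pull inferInstance hnK hδ0 y Dy hy hDy hs
    have h1 := pairSec_mono (δ' := δV) (fun Q' hQ' => by
      obtain ⟨e', P', hP'⟩ := Pool.Agent.W73.PG.PULL.exists_over' (K := K) Q'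
      rw [hδ0 P' Q' e' hP']
      exact hδV P' Q' e' hP' hQ') h0
    refine ⟨h1.1, fun Q hQ G hG => ?_⟩
    rcases h1.2 Q hQ G hG with h2 | ⟨z, hz, hz0, h2⟩
    · exact Or.inl h2
    · right
      rw [Nat.cast_zero, zero_mul, zero_sub] at h2
      exact h2
  have h1 := hpull hω
  have h2 := hpull hω'
  have hcoord := pluri_coord hy hDy hω.1 D
  have hcoord' := pluri_coord hy hDy hω'.1 D
  have hω0 : ω Dy ≠ 0 := by
    intro h0
    apply hD
    rw [hcoord, h0, mul_zero]
  have hdetK : (Matrix.of fun i j => D i (y j)).det ^ m ≠ 0 := by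
    intro h0
    apply hD
    rw [hcoord, h0, zero_mul]
  have h3 := ratio_mem (Λ := Λ) (F := F) E hE hn hgenF hcl hδF hnum hm h1.1 h2.1 h1.2 h2.2
    (D := D') (by
      simp only [hdet, one_pow, one_mul]
      rwa [Ne, map_eq_zero])
  simp only [hdet, one_pow, one_mul] at h3
  have h4 : ω' D / ω D = ω' Dy / ω Dy := by
    rw [hcoord, hcoord']
    field_simp
  rw [h4, map_div₀]
  exact h3

/-- the functions on the base of the Iitaka fibration are functions on the base upstairs -/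
theorem iitaka_sub {d r : ℕ} (hE : Algebra.trdeg ℂ E = d)
    (hn : Algebra.trdeg ℂ L = (d + (r + 1) : ℕ)) [Algebra.IsAlgebraic E Λ]
    (hgenF : IntermediateField.adjoin Λ (Set.range (algebraMap L F)) = ⊤)
    (hcl : ∀ z : L, IsAlgebraic E z → z ∈ E)
    {δ : Place ℂ K → ℝ} {δV : Place ℂ L → ℝ} {δF : Place Λ F → ℝ}
    (hδV : ∀ (P : Place ℂ K) (Q : Place ℂ L) (e : ℕ), Over Q P e → Divisorial (d + (r + 1)) Q →
      max 0 (1 - e * (1 - δ P)) ≤ δV Q)
    (hδF : IsPullFib δV δF) (hnum : PairNum Λ F (r + 1) δF 0) (z : K)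
    (hz : IsAlgebraic (IntermediateField.adjoin ℂ (ratios K (d + (r + 1)) δ)) z) :
    algebraMap K L z ∈ E := by
  refine hcl _ ?_
  refine alg_map (IsScalarTower.toAlgHom ℂ K L) ?_ hz
  rw [IntermediateField.adjoin_map, IntermediateField.adjoin_le_iff]
  rintro _ ⟨y, ⟨m, ω, ω', D, hm, hω, hω', hD, rfl⟩, rfl⟩
  exact ratio_down (Λ := Λ) (F := F) E hE hn hgenF hcl hδV hδF hnum hm hω hω' hD

/-- **The Iitaka fibration.** If the Kodaira dimension downstairs is the dimension of the base then the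
functions on the base which are defined downstairs are the functions on the base of the Iitaka
fibration. -/
theorem iitaka_field {d r : ℕ} (hE : Algebra.trdeg ℂ E = d)
    (hn : Algebra.trdeg ℂ L = (d + (r + 1) : ℕ)) [Algebra.IsAlgebraic E Λ]
    (hgenF : IntermediateField.adjoin Λ (Set.range (algebraMap L F)) = ⊤)
    (hcl : ∀ z : L, IsAlgebraic E z → z ∈ E)
    {δ : Place ℂ K → ℝ} {δV : Place ℂ L → ℝ} {δF : Place Λ F → ℝ}
    (hδV : ∀ (P : Place ℂ K) (Q : Place ℂ L) (e : ℕ), Over Q P e → Divisorial (d + (r + 1)) Q →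
      max 0 (1 - e * (1 - δ P)) ≤ δV Q)
    (hδF : IsPullFib δV δF) (hnum : PairNum Λ F (r + 1) δF 0)
    (hk : PairKod ℂ K (d + (r + 1)) δ d) :
    (∀ z : K, algebraMap K L z ∈ E ↔
      IsAlgebraic (IntermediateField.adjoin ℂ (ratios K (d + (r + 1)) δ)) z) ∧
    ∃ x : Fin d → K, (∀ i, x i ∈ ratios K (d + (r + 1)) δ) ∧ AlgebraicIndependent ℂ x ∧
      ∀ z ∈ E, IsAlgebraic (IntermediateField.adjoin ℂ (Set.range fun i => algebraMap K L (x i)))
        z := by
  classical
  have hmem : ∀ x ∈ ratios K (d + (r + 1)) δ, algebraMap K L x ∈ E := by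
    rintro x ⟨m, ω, ω', D, hm, hω, hω', hD, rfl⟩
    exact ratio_down (Λ := Λ) (F := F) E hE hn hgenF hcl hδV hδF hnum hm hω hω' hD
  obtain ⟨m, hm, ω, hω, D, hD, hind⟩ := hk
  obtain ⟨x, hx⟩ : ∃ x : Fin d → K, ∀ i, x i = ω i.succ D / ω 0 D := ⟨_, fun _ => rfl⟩
  have hxr : ∀ i, x i ∈ ratios K (d + (r + 1)) δ := by
    intro i
    rw [hx]
    exact ⟨m, ω 0, ω i.succ, D, hm, hω 0, hω _, hD 0, rfl⟩
  have hind' : AlgebraicIndependent ℂ x := by
    have h1 : x = fun l : Fin d => ω l.succ D / ω 0 D := by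
      funext i
      rw [hx]
    rw [h1]
    exact hind
  -- the functions on the base
  obtain ⟨xE, hxE⟩ : ∃ xE : Fin d → E, ∀ i, (xE i : L) = algebraMap K L (x i) :=
    ⟨fun i => ⟨algebraMap K L (x i), hmem _ (hxr i)⟩, fun _ => rfl⟩
  have hindL : AlgebraicIndependent ℂ fun i => algebraMap K L (x i) :=
    hind'.map' (f := IsScalarTower.toAlgHom ℂ K L) (algebraMap K L).injective
  have hindE : AlgebraicIndependent ℂ xE := by
    have h1 : (fun i => algebraMap K L (x i)) = E.val ∘ xE := by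
      funext i
      exact (hxE i).symm
    rw [h1] at hindL
    exact AlgebraicIndependent.of_comp E.val hindL
  have hbas : IsTranscendenceBasis ℂ xE := hindE.isTranscendenceBasis_of_trdeg_le_of_finite (by
    rw [hE]
    simp)
  have halgE : ∀ z ∈ E, IsAlgebraic
      (IntermediateField.adjoin ℂ (Set.range fun i => algebraMap K L (x i))) z := by
    intro z hz
    have h1 : Algebra.IsAlgebraic (IntermediateField.adjoin ℂ (Set.range xE)) E :=
      hbas.isAlgebraic_field
    refine alg_map (A := E) (B := L) E.val (z := ⟨z, hz⟩) ?_ (h1.isAlgebraic ⟨z, hz⟩)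
    rw [IntermediateField.adjoin_map]
    refine IntermediateField.adjoin.mono _ _ _ ?_
    rintro _ ⟨_, ⟨i, rfl⟩, rfl⟩
    exact ⟨i, (hxE i).symm⟩
  refine ⟨fun z => ⟨fun hz => ?_, fun hz => ?_⟩, x, hxr, hind', halgE⟩
  · have h1 := halgE _ hz
    have h2 : IsAlgebraic (IntermediateField.adjoin ℂ (Set.range x)) z := by
      refine alg_comap (IsScalarTower.toAlgHom ℂ K L) ?_
      have h3 : (IntermediateField.adjoin ℂ (Set.range x)).map (IsScalarTower.toAlgHom ℂ K L) =
          IntermediateField.adjoin ℂ (Set.range fun i => algebraMap K L (x i)) := by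
        rw [IntermediateField.adjoin_map, ← Set.range_comp]
        rfl
      rw [h3]
      exact h1
    refine alg_map (A := K) (B := K) (AlgHom.id ℂ K) ?_ h2
    rw [IntermediateField.adjoin_map]
    refine IntermediateField.adjoin.mono _ _ _ ?_
    rintro _ ⟨_, ⟨i, rfl⟩, rfl⟩
    exact hxr i
  · refine hcl _ ?_
    refine alg_map (IsScalarTower.toAlgHom ℂ K L) ?_ hz
    rw [IntermediateField.adjoin_map, IntermediateField.adjoin_le_iff]
    rintro _ ⟨y, hy, rfl⟩
    exact hmem y hy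

end

end Pool.Agent.U192.PE
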