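import Mathlib
import Pool.Agent.H952R2.Sextic.CommonZero

/-!
Norms of linearly independent functions.
-/

set_option autoImplicit false
set_option linter.overlappingInstances false
set_option linter.unusedSectionVars false

open MvPolynomial

namespace Pool.Agent.U192.PE

section

variable {K L : Type} [Field K] [Field L] [Algebra ℂ K] [Algebra ℂ L] [Algebra K L]
  [IsScalarTower ℂ K L] [FiniteDimensional K L]

/-- **Norms of linearly independent functions.** The norms of the linear combinations of `N` linearly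
independent functions span a space of dimension at least `N`. -/
theorem norm_indep {N : ℕ} {a : Fin N → L} (ha : LinearIndependent ℂ a) :
    ∃ c : Fin N → Fin N → ℂ, LinearIndependent ℂ fun j => Algebra.norm K (∑ l, c j l • a l) := by
  classical
  have hK : CharZero K := charZero_of_injective_algebraMap (algebraMap ℂ K).injective
  let Kb := AlgebraicClosure K
  obtain ⟨v, hv⟩ : ∃ v : (Fin N → ℂ) → Kb, ∀ c, v c =
      algebraMap K Kb (Algebra.norm K (∑ l, c l • a l)) := ⟨_, fun _ => rfl⟩
  obtain ⟨B, hB⟩ : ∃ B : ((L →ₐ[K] Kb) → Fin N) → Kb, ∀ g, B g = ∏ σ : L →ₐ[K] Kb, σ (a (g σ)) :=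
    ⟨_, fun _ => rfl⟩
  have hexp : ∀ c, v c = ∑ g : (L →ₐ[K] Kb) → Fin N, (∏ σ, c (g σ)) • B g := by
    intro c
    rw [hv, Algebra.norm_eq_prod_embeddings]
    have h1 : ∀ σ : L →ₐ[K] Kb, σ (∑ l, c l • a l) = ∑ l, c l • σ (a l) := by
      intro σ
      rw [map_sum]
      refine Finset.sum_congr rfl fun l _ => ?_
      exact map_smul (σ.restrictScalars ℂ) (c l) (a l)
    rw [Finset.prod_congr rfl fun σ _ => h1 σ, Finset.prod_univ_sum]
    refine Finset.sum_congr (by ext; simp) fun g _ => ?_
    rw [hB, Finset.prod_smul]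
  let T : Submodule ℂ Kb := Submodule.span ℂ (Set.range v)
  have hTB : T ≤ Submodule.span ℂ (Set.range B) := by
    rw [Submodule.span_le]
    rintro _ ⟨c, rfl⟩
    rw [hexp]
    exact Submodule.sum_mem _ fun g _ => Submodule.smul_mem _ _ (Submodule.subset_span ⟨g, rfl⟩)
  have hBf : FiniteDimensional ℂ (Submodule.span ℂ (Set.range B)) :=
    FiniteDimensional.span_of_finite ℂ (Set.finite_range _)
  have hTf : FiniteDimensional ℂ T := Submodule.finiteDimensional_of_le hTB
  have hrank : N ≤ Module.finrank ℂ T := by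
    by_contra hcon
    push Not at hcon
    let b := Module.finBasis ℂ T
    obtain ⟨φ, hφ⟩ := LinearMap.exists_leftInverse_of_injective T.subtype
      (LinearMap.ker_eq_bot.2 T.injective_subtype)
    obtain ⟨Pk, hPk⟩ : ∃ Pk : Fin (Module.finrank ℂ T) → MvPolynomial (Fin N) ℂ, ∀ k, Pk k =
        ∑ g : (L →ₐ[K] Kb) → Fin N, C (b.repr (φ (B g)) k) * ∏ σ, X (g σ) := ⟨_, fun _ => rfl⟩
    have heval : ∀ c k, eval c (Pk k) = b.repr (φ (v c)) k := by
      intro c k
      rw [hPk, map_sum, hexp, map_sum, map_sum, Finsupp.finsetSum_apply]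
      refine Finset.sum_congr rfl fun g _ => ?_
      rw [map_mul, eval_C, map_prod, map_smul, map_smul, Finsupp.smul_apply, smul_eq_mul, mul_comm]
      congr 1
      refine Finset.prod_congr rfl fun σ _ => ?_
      rw [eval_X]
    have hne : Nonempty (L →ₐ[K] Kb) := ⟨IsAlgClosed.lift⟩
    obtain ⟨x, hx0, hx⟩ := Pool.Agent.H952R2.Sextic.exists_common_zero (K := ℂ)
      (ι := Fin N) (κ := Fin (Module.finrank ℂ T)) (by simpa using hcon) Pk (fun k => by
        rw [hPk, map_sum]
        refine Finset.sum_eq_zero fun g _ => ?_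
        rw [map_mul, map_prod]
        obtain ⟨σ⟩ := hne
        rw [Finset.prod_eq_zero (Finset.mem_univ σ) (by rw [eval_X]; rfl), mul_zero])
    have h1 : φ (v x) = 0 := by
      apply b.repr.injective
      ext k
      rw [← heval, hx k, map_zero]
      rfl
    have h2 : v x = 0 := by
      have h3 : v x ∈ T := Submodule.subset_span ⟨x, rfl⟩
      have h4 := LinearMap.congr_fun hφ ⟨v x, h3⟩
      change φ (v x) = ⟨v x, h3⟩ at h4
      rw [h1] at h4
      exact (congrArg Subtype.val h4).symm
    rw [hv, map_eq_zero, Algebra.norm_eq_zero_iff] at h2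
    exact hx0 (funext fun l => Fintype.linearIndependent_iff.1 ha x h2 l)
  obtain ⟨b, hbB, hbspan, hbi⟩ := exists_linearIndependent ℂ (Set.range v)
  have hbf : b.Finite := by
    have h1 : Submodule.span ℂ b = T := hbspan
    have h2 : FiniteDimensional ℂ (Submodule.span ℂ b) := by rw [h1]; exact hTf
    have h3 : Submodule.span ℂ (Set.range ((↑) : b → Kb)) = Submodule.span ℂ b := by
      rw [Subtype.range_coe]
    have h4 : FiniteDimensional ℂ (Submodule.span ℂ (Set.range ((↑) : b → Kb))) := by
      rw [h3]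
      exact h2
    have h5 : Finite b := Module.Finite.finite_basis (Module.Basis.span hbi)
    exact Set.toFinite b
  have hcard : N ≤ hbf.toFinset.card := by
    refine hrank.trans ?_
    have h1 : Submodule.span ℂ b = T := hbspan
    have h2 := finrank_span_finset_le_card (R := ℂ) hbf.toFinset
    rw [Set.finrank, hbf.coe_toFinset, h1] at h2
    exact h2
  let e := hbf.toFinset.equivFin
  have he : ∀ j : Fin N, ((e.symm (Fin.castLE hcard j) : hbf.toFinset) : Kb) ∈ b := fun j =>
    hbf.mem_toFinset.1 (e.symm _).2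
  choose c hc using fun j => hbB (he j)
  refine ⟨c, ?_⟩
  have h5 : LinearIndependent ℂ fun j : Fin N =>
      ((e.symm (Fin.castLE hcard j) : hbf.toFinset) : Kb) := by
    have h6 := hbi.comp (fun j : Fin N => (⟨_, he j⟩ : b)) (by
      intro j1 j2 hj
      have h7 := Subtype.mk.inj hj
      exact Fin.castLE_injective hcard (e.symm.injective (Subtype.ext h7)))
    exact h6
  have h6 : LinearIndependent ℂ fun j => algebraMap K Kb (Algebra.norm K (∑ l, c j l • a l)) := by
    have h7 : (fun j => algebraMap K Kb (Algebra.norm K (∑ l, c j l • a l))) = fun j : Fin N =>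
        ((e.symm (Fin.castLE hcard j) : hbf.toFinset) : Kb) := by
      funext j
      rw [← hc j, hv]
    rw [h7]
    exact h5
  exact LinearIndependent.of_comp (IsScalarTower.toAlgHom ℂ K Kb).toLinearMap h6

end

end Pool.Agent.U192.PE
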