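import Pool.Agent.U192.PN.Norm

/-!
Norms of pluricanonical forms relative to a finite set of functions.
-/

set_option autoImplicit false
set_option linter.overlappingInstances false
set_option linter.unusedSectionVars false

open FF Pool.Agent.W602.GT Pool.Agent.W603.LV Pool.Agent.W619.PQ Pool.Agent.Y172
open Pool.Agent.Y174 (PairSec PairKod PairNum IsPull IsPullFib LiesOn)

namespace Pool.Agent.U192.PE

open Pool.Agent.U192.NM

section

variable {k K M L Ω : Type} [Field k] [CharZero k] [IsAlgClosed k] [Field K] [Field M] [Field L]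
  [Field Ω] [Algebra k K] [Algebra k M] [Algebra k L] [Algebra k Ω] [Algebra K M] [Algebra K L]
  [Algebra K Ω] [Algebra M L] [Algebra M Ω] [Algebra L Ω]
  [IsScalarTower k K M] [IsScalarTower k K L] [IsScalarTower k K Ω] [IsScalarTower k M L]
  [IsScalarTower k M Ω] [IsScalarTower k L Ω]
  [IsScalarTower K M L] [IsScalarTower K M Ω] [IsScalarTower K L Ω] [IsScalarTower M L Ω]
  [FiniteDimensional K M] [FiniteDimensional K L] [FiniteDimensional K Ω] [IsGalois K Ω]
  [Algebra.EssFiniteType k K] [Algebra.EssFiniteType k L]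

/-- the order of the values relative to the finite set `S`: `c` is a common divisor of the orders of
the functions in `M` -/
def RegS (δ : Place k K → ℝ) (M : Type) [Field M] [Algebra M L] (n m : ℕ) {d : ℕ} (S : Finset L)
    (f : Fin d → L) (θ : (Fin n → Derivation k L L) → L) : Prop :=
  ∀ (P : Place k K) (Q : Place k L) (e : ℕ), Over Q P e → Divisorial n Q →
    ∀ c : ℕ, (∀ z : M, (c : ℤ) ∣ Q.ord (algebraMap M L z)) →
    ∀ G : Fin n → Derivation k L L, (∀ i, DerReg Q (G i)) → θ G = 0 ∨ ∃ s ∈ S, s ≠ 0 ∧ ∀ j,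
      (m : ℝ) * (c - 1) + Q.ord s ≤ Q.ord (θ G) + 2 * m * Q.ord (f j) + m * e * δ P

/-- **The orders of the conjugates** of finitely many functions are bounded below by the orders of
finitely many functions downstairs. -/
theorem conj_low (Ω : Type) [Field Ω] [Algebra k Ω] [Algebra K Ω] [IsScalarTower k K Ω]
    (S : Finset L) : ∃ Z : Finset K, (1 : K) ∈ Z ∧ (S = {1} → Z = {1}) ∧
    ∀ (P : Place k K) (W : Place k Ω) (e : ℕ), Over W P e → ∀ σ : L →ₐ[K] Ω, ∀ s ∈ S, s ≠ 0 →
      ∃ z ∈ Z, z ≠ 0 ∧ (e : ℤ) * P.ord z ≤ W.ord (σ s) := by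
  classical
  by_cases hS1 : S = {1}
  · refine ⟨{1}, Finset.mem_singleton_self _, fun _ => rfl, fun P W e hW σ s hs hs0 =>
      ⟨1, Finset.mem_singleton_self _, one_ne_zero, ?_⟩⟩
    rw [hS1, Finset.mem_singleton] at hs
    rw [hs, map_one, W.ord_one, P.ord_one, mul_zero]
  refine ⟨insert 1 (S.biUnion fun s => (Finset.range ((minpoly K s).natDegree)).image
    fun i => (minpoly K s).coeff i), Finset.mem_insert_self _ _, fun h => absurd h hS1, ?_⟩
  intro P W e hW σ s hs hs0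
  by_cases hw : 0 ≤ W.ord (σ s)
  · refine ⟨1, Finset.mem_insert_self _ _, one_ne_zero, ?_⟩
    rw [P.ord_one, mul_zero]
    exact hw
  push Not at hw
  by_contra hcon
  push Not at hcon
  have hint : IsIntegral K s := Algebra.IsIntegral.isIntegral s
  obtain ⟨p, hp⟩ : ∃ p, p = minpoly K s := ⟨_, rfl⟩
  have hmon : p.Monic := by
    rw [hp]
    exact minpoly.monic hint
  have hσ0 : σ s ≠ 0 := by
    rwa [Ne, map_eq_zero]
  have h1 : ∀ i ∈ Finset.range p.natDegree, Ge W ((p.natDegree : ℤ) * W.ord (σ s) + 1)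
      (algebraMap K Ω (p.coeff i) * σ s ^ i) := by
    intro i hi
    by_cases h0 : p.coeff i = 0
    · left
      rw [h0, map_zero, zero_mul]
    right
    have h2 := hcon (p.coeff i) (Finset.mem_insert_of_mem (Finset.mem_biUnion.2 ⟨s, hs, by
      rw [← hp]
      exact Finset.mem_image_of_mem _ hi⟩)) h0
    have h3 : algebraMap K Ω (p.coeff i) ≠ 0 := by
      rwa [Ne, map_eq_zero]
    rw [W.ord_mul h3 (pow_ne_zero _ hσ0), W.ord_pow, hW.2]
    rw [Finset.mem_range] at hi
    have h4 : ((p.natDegree : ℤ) - i) * W.ord (σ s) ≤ W.ord (σ s) := by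
      have h5 : (1 : ℤ) ≤ (p.natDegree : ℤ) - i := by omega
      nlinarith
    linarith
  have h2 : Ge W ((p.natDegree : ℤ) * W.ord (σ s) + 1)
      (∑ i ∈ Finset.range p.natDegree, algebraMap K Ω (p.coeff i) * σ s ^ i) :=
    Ge.sum _ _ h1
  have h3 : ∑ i ∈ Finset.range p.natDegree, algebraMap K Ω (p.coeff i) * σ s ^ i =
      -(σ s ^ p.natDegree) := by
    have h4 : Polynomial.aeval (σ s) p = 0 := by
      have h5 : Polynomial.aeval (σ s) p = σ (Polynomial.aeval s p) :=
        Polynomial.aeval_algHom_apply σ s p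
      rw [h5, hp, minpoly.aeval, map_zero]
    rw [Polynomial.aeval_eq_sum_range, Finset.sum_range_succ, hmon.coeff_natDegree, one_smul] at h4
    rw [eq_neg_iff_add_eq_zero, ← h4]
    congr 1
    refine Finset.sum_congr rfl fun i _ => ?_
    rw [Algebra.smul_def]
  rw [h3] at h2
  have h4 := h2.resolve_left (neg_ne_zero.2 (pow_ne_zero _ hσ0))
  rw [W.ord_neg, W.ord_pow] at h4
  omega

/-- **The estimate for one embedding.** -/
theorem local_est {δ : Place k K → ℝ} {n m d : ℕ} (hn : Algebra.trdeg k L = n)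
    {f : Fin d → M} {S : Finset L} (hS : ∃ s ∈ S, s ≠ 0)
    {θ : (Fin n → Derivation k L L) → L} (hθ : IsPluri m θ)
    (hr : RegS δ M n m S (fun j => algebraMap M L (f j)) θ)
    {P : Place k K} (hP : Divisorial n P) {y : Fin n → K} {D : Fin n → Derivation k K K}
    {i0 : Fin n} (hl : Loc P y D i0) {D' : Fin n → Derivation k L L}
    (hD' : ∀ i f, D' i (algebraMap K L f) = algebraMap K L (D i f)) (hne : θ D' ≠ 0)
    {W : Place k Ω} {e : ℕ} (hW : Over W P e) (σ : L →ₐ[K] Ω) (τ : M →ₐ[K] Ω)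
    (hτ : ∀ x : M, τ x = σ (algebraMap M L x)) {c : ℤ} (hc : 0 < c) {Q' : Place k M}
    (hQ' : ∀ x, W.ord (τ x) = c * Q'.ord x) {ν : ℤ} {j0 : Fin d} (hν : ν = W.ord (τ (f j0))) :
    ∃ s ∈ S, s ≠ 0 ∧
      W.ord (σ s) + -((m : ℝ) * (e - c + 2 * ν)) - m * e * δ P ≤ W.ord (σ (θ D')) := by
  classical
  obtain ⟨Q, e', a, hQ, ha, hea, hord⟩ := below_emb σ hW
  have hQd : Divisorial n Q := divisorial_up hQ hP
  have ha' : (0 : ℤ) < a := by exact_mod_cast ha
  have ha'' : (0 : ℝ) < a := by exact_mod_cast ha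
  have hν' : ν = a * Q.ord (algebraMap M L (f j0)) := by
    rw [hν, hτ, hord]
  have hνr : (ν : ℝ) = a * Q.ord (algebraMap M L (f j0)) := by
    rw [hν']
    push_cast
    rfl
  have hee : (e : ℝ) = a * e' := by
    rw [hea]
    push_cast
    ring
  obtain ⟨x1, hx10, hx1⟩ := Q'.surj
  have h1 : c = a * Q.ord (algebraMap M L x1) := by
    have h2 := hQ' x1
    rw [hx1, mul_one, hτ, hord] at h2
    exact h2.symm
  obtain ⟨c', hc'⟩ : ∃ c' : ℕ, Q.ord (algebraMap M L x1) = c' := by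
    refine ⟨(Q.ord (algebraMap M L x1)).toNat, (Int.toNat_of_nonneg ?_).symm⟩
    by_contra hcon
    push Not at hcon
    have : a * Q.ord (algebraMap M L x1) < 0 := mul_neg_of_pos_of_neg ha' hcon
    omega
  rw [hc'] at h1
  have h1r : (c : ℝ) = a * c' := by
    rw [h1]
    push_cast
    rfl
  have h2 : ∀ z : M, (c' : ℤ) ∣ Q.ord (algebraMap M L z) := by
    intro z
    have h3 := hQ' z
    rw [hτ, hord, h1, mul_assoc] at h3
    exact ⟨Q'.ord z, mul_left_cancel₀ ha'.ne' h3⟩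
  obtain ⟨s1, hs1, hs10⟩ := hS
  obtain ⟨s, hs, hmin⟩ := Finset.exists_min_image (S.filter (· ≠ 0)) (fun s => Q.ord s)
    ⟨s1, Finset.mem_filter.2 ⟨hs1, hs10⟩⟩
  rw [Finset.mem_filter] at hs
  refine ⟨s, hs.1, hs.2, ?_⟩
  have h3 := down_ge hn hQ hQd hl hD' hθ (c := (m : ℝ) * (c' - 1) + Q.ord s -
      2 * m * Q.ord (algebraMap M L (f j0)) - m * e' * δ P) (fun G hG => by
    rcases hr P Q e' hQ hQd c' h2 G hG with h4 | ⟨s', hs', hs0', h4⟩
    · exact Or.inl h4
    · right
      have h5 := h4 j0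
      have h6 : (Q.ord s : ℝ) ≤ Q.ord s' := by
        exact_mod_cast hmin s' (Finset.mem_filter.2 ⟨hs', hs0'⟩)
      linarith)
  have h4 := h3.resolve_left hne
  have h6 : Q.ord s + (m : ℝ) * (c' - e' - 2 * Q.ord (algebraMap M L (f j0))) - m * e' * δ P ≤
      Q.ord (θ D') := by linarith
  have h7 := mul_le_mul_of_nonneg_left h6 ha''.le
  rw [hord, hord]
  push_cast
  rw [hνr, h1r, hee]
  linarith

variable (L) in
/-- **The norm of a form is regular.** The factor `ε` is the discriminant of the basis `f`. -/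
theorem norm_reg (Ω : Type) [Field Ω] [Algebra k Ω] [Algebra K Ω] [Algebra M Ω] [Algebra L Ω]
    [IsScalarTower k K Ω] [IsScalarTower k M Ω] [IsScalarTower k L Ω] [IsScalarTower K M Ω]
    [IsScalarTower K L Ω] [IsScalarTower M L Ω] [FiniteDimensional K Ω] [IsGalois K Ω]
    {d : ℕ} (f : Module.Basis (Fin d) K M) : ∃ ε : K, ε ≠ 0 ∧
    ∀ S : Finset L, (∃ s ∈ S, s ≠ 0) → ∃ Z : Finset K, (S = {1} → Z = {1}) ∧
    ∀ (δ : Place k K → ℝ) (n m : ℕ), Algebra.trdeg k L = n →
    ∀ θ : (Fin n → Derivation k L L) → L, IsPluri m θ →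
    RegS δ M n m S (fun j => algebraMap M L (f j)) θ →
    ∀ P : Place k K, Divisorial n P → ∀ (y : Fin n → K) (D : Fin n → Derivation k K K)
    (i0 : Fin n), Loc P y D i0 → ∀ D' : Fin n → Derivation k L L,
    (∀ i f, D' i (algebraMap K L f) = algebraMap K L (D i f)) → θ D' ≠ 0 →
    ∃ z ∈ Z, z ≠ 0 ∧ (P.ord z : ℝ) - ((m * Module.finrank K L : ℕ) : ℝ) * δ P ≤
      P.ord (Algebra.norm K (θ D') * ε ^ (m * Module.finrank M L)) := by
  classical
  have hcK : CharZero K := charZero_of_injective_algebraMap (algebraMap k K).injective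
  have hfL : FiniteDimensional L Ω := FiniteDimensional.right K L Ω
  have hfM : FiniteDimensional M L := FiniteDimensional.right K M L
  have hfMΩ : FiniteDimensional M Ω := FiniteDimensional.right K M Ω
  have : Fintype (Ω ≃ₐ[K] Ω) := Fintype.ofFinite _
  have : Fintype (M →ₐ[K] Ω) := Fintype.ofFinite _
  obtain ⟨c0, hc0, hsum⟩ := sum_fib (K := K) (Ω := Ω) M
  obtain ⟨ε, hε0, hε⟩ := disc_bound (k := k) (Ω := Ω) f
  refine ⟨ε, hε0, fun S hS => ?_⟩
  obtain ⟨Z0, hZ1, hZS, hZ0⟩ := conj_low (k := k) (K := K) (L := L) Ω S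
  refine ⟨Z0.image fun z => z ^ Module.finrank K L, fun h => by
    rw [hZS h, Finset.image_singleton, one_pow], ?_⟩
  intro δ n m hn θ hθ hr P hP y D i0 hl D' hD' hne
  obtain ⟨W, e, g, ζ, hW, hg, hrot⟩ := inertia_rot (M := Ω) P
  have hd0 : 0 < d := by
    have h1 : Module.finrank K M = d := by
      rw [Module.finrank_eq_card_basis f, Fintype.card_fin]
    rw [← h1]
    exact Module.finrank_pos
  -- the numbers for the embeddings of `M`
  have hemb : ∀ τ : M →ₐ[K] Ω, ∃ (c : ℤ) (j0 : Fin d), 0 < c ∧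
      (∃ Q : Place k M, ∀ x, W.ord (τ x) = c * Q.ord x) ∧
      ∀ j, W.ord (τ (f j0)) ≤ W.ord (τ (f j)) := by
    intro τ
    obtain ⟨Q, e', a, hQ, ha, hea, hord⟩ := below_emb τ hW
    have : Nonempty (Fin d) := ⟨⟨0, hd0⟩⟩
    obtain ⟨j0, hj0⟩ := Finite.exists_min fun j => W.ord (τ (f j))
    exact ⟨a, j0, by exact_mod_cast ha, ⟨Q, hord⟩, hj0⟩
  choose c j0 hc hQ hj0 using hemb
  have h1 := hε W e g ζ hW.1 hg hrot c (fun τ => W.ord (τ (f (j0 τ)))) (fun τ => ⟨hc τ, hQ τ⟩) hj0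
  -- the minimal order of the functions in `Z0`
  obtain ⟨z0, hz0, hzmin⟩ := Finset.exists_min_image (Z0.filter (· ≠ 0)) (fun z => P.ord z)
    ⟨1, Finset.mem_filter.2 ⟨hZ1, one_ne_zero⟩⟩
  rw [Finset.mem_filter] at hz0
  refine ⟨z0 ^ Module.finrank K L, Finset.mem_image_of_mem _ hz0.1, pow_ne_zero _ hz0.2, ?_⟩
  -- the sum over the automorphisms
  have h2 : ∀ h : Ω ≃ₐ[K] Ω, (e : ℝ) * P.ord z0 +
      -((m : ℝ) * (e - c (act h (IsScalarTower.toAlgHom K M Ω)) +
      2 * W.ord ((act h (IsScalarTower.toAlgHom K M Ω))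
        (f (j0 (act h (IsScalarTower.toAlgHom K M Ω))))))) - m * e * δ P ≤
      W.ord (h (algebraMap L Ω (θ D'))) := by
    intro h
    obtain ⟨Q', hQ'⟩ := hQ (act h (IsScalarTower.toAlgHom K M Ω))
    obtain ⟨s, hs, hs0, h3⟩ := local_est (Ω := Ω) (M := M)
      (j0 := j0 (act h (IsScalarTower.toAlgHom K M Ω))) hn hS hθ hr hP hl hD'
      hne hW (act h (IsScalarTower.toAlgHom K L Ω)) (act h (IsScalarTower.toAlgHom K M Ω))
      (fun x => by
        rw [act_apply, act_apply]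
        change h (algebraMap M Ω x) = h (algebraMap L Ω (algebraMap M L x))
        rw [← IsScalarTower.algebraMap_apply M L Ω]) (hc _) hQ' rfl
    obtain ⟨z, hz, hzne, h4⟩ := hZ0 P W e hW (act h (IsScalarTower.toAlgHom K L Ω)) s hs hs0
    have h5 : (e : ℝ) * P.ord z ≤ W.ord ((act h (IsScalarTower.toAlgHom K L Ω)) s) := by
      exact_mod_cast h4
    have h6 : (P.ord z0 : ℝ) ≤ P.ord z := by
      exact_mod_cast hzmin z (Finset.mem_filter.2 ⟨hz, hzne⟩)
    have h7 := mul_le_mul_of_nonneg_left h6 (Nat.cast_nonneg (α := ℝ) e)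
    have h8 : W.ord ((act h (IsScalarTower.toAlgHom K L Ω)) (θ D')) =
        W.ord (h (algebraMap L Ω (θ D'))) := rfl
    rw [h8] at h3
    linarith
  have h3 : algebraMap K Ω (Algebra.norm K (algebraMap L Ω (θ D'))) =
      ∏ h : Ω ≃ₐ[K] Ω, h (algebraMap L Ω (θ D')) := by
    rw [Algebra.norm_eq_prod_automorphisms K (algebraMap L Ω (θ D'))]
    refine Finset.prod_congr ?_ fun _ _ => rfl
    ext
    simp
  have hz0' : algebraMap L Ω (θ D') ≠ 0 := by
    rw [Ne, map_eq_zero]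
    exact hne
  have hN0 : Algebra.norm K (algebraMap L Ω (θ D')) ≠ 0 := by
    rwa [Ne, Algebra.norm_eq_zero_iff]
  have h4 : W.ord (algebraMap K Ω (Algebra.norm K (algebraMap L Ω (θ D')))) =
      ∑ h : Ω ≃ₐ[K] Ω, W.ord (h (algebraMap L Ω (θ D'))) := by
    rw [h3]
    exact Pool.Agent.W619.PQ.ord_prod _ W _ fun h _ => by
      rwa [Ne, EmbeddingLike.map_eq_zero_iff]
  have hcard : ((Fintype.card (Ω ≃ₐ[K] Ω) : ℕ) : ℝ) = Module.finrank K Ω := by
    rw [← Nat.card_eq_fintype_card, IsGalois.card_aut_eq_finrank]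
  have h6 := hsum fun τ => (e : ℤ) - c τ + 2 * W.ord (τ (f (j0 τ)))
  have h7 : (∑ h : Ω ≃ₐ[K] Ω, ((e : ℤ) - c (act h (IsScalarTower.toAlgHom K M Ω)) +
      2 * W.ord ((act h (IsScalarTower.toAlgHom K M Ω))
        (f (j0 (act h (IsScalarTower.toAlgHom K M Ω)))))) : ℤ) ≤
      c0 * W.ord (algebraMap K Ω ε) := by
    rw [h6]
    exact mul_le_mul_of_nonneg_left h1 (Int.natCast_nonneg _)
  have h7r : ∑ h : Ω ≃ₐ[K] Ω, ((e : ℝ) - c (act h (IsScalarTower.toAlgHom K M Ω)) +
      2 * W.ord ((act h (IsScalarTower.toAlgHom K M Ω))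
        (f (j0 (act h (IsScalarTower.toAlgHom K M Ω)))))) ≤
      c0 * W.ord (algebraMap K Ω ε) := by
    exact_mod_cast h7
  have h5 : (Module.finrank K Ω : ℝ) * (e * P.ord z0) -
      ((m : ℝ) * (c0 * W.ord (algebraMap K Ω ε))) -
      (Module.finrank K Ω : ℝ) * (m * e * δ P) ≤
      W.ord (algebraMap K Ω (Algebra.norm K (algebraMap L Ω (θ D')))) := by
    rw [h4, Int.cast_sum]
    refine le_trans ?_ (Finset.sum_le_sum fun h _ => h2 h)
    rw [Finset.sum_sub_distrib, Finset.sum_add_distrib, Finset.sum_neg_distrib,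
      Finset.sum_const, Finset.sum_const, Finset.card_univ, nsmul_eq_mul, nsmul_eq_mul, hcard,
      ← Finset.mul_sum]
    have h8 := mul_le_mul_of_nonneg_left h7r (Nat.cast_nonneg (α := ℝ) m)
    linarith
  -- the degrees
  have hq1 : Module.finrank K L * Module.finrank L Ω = Module.finrank K Ω :=
    Module.finrank_mul_finrank K L Ω
  have hq2 : Module.finrank M L * Module.finrank L Ω = Module.finrank M Ω :=
    Module.finrank_mul_finrank M L Ω
  have hq3 : Module.finrank K M * Module.finrank M Ω = Module.finrank K Ω :=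
    Module.finrank_mul_finrank K M Ω
  have hc0' : c0 = Module.finrank M Ω := by
    have h8 := hsum fun _ => 1
    rw [Finset.sum_const, Finset.sum_const, Finset.card_univ, Finset.card_univ, nsmul_eq_mul,
      nsmul_eq_mul, mul_one, mul_one] at h8
    have h9 : Fintype.card (M →ₐ[K] Ω) = Module.finrank K M := by
      obtain ⟨en⟩ := exists_enum (K := K) (Ω := Ω) M (d := Module.finrank K M) rfl
      rw [← Fintype.card_congr en, Fintype.card_fin]
    have h10 : Fintype.card (Ω ≃ₐ[K] Ω) = Module.finrank K Ω := by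
      rw [← Nat.card_eq_fintype_card, IsGalois.card_aut_eq_finrank]
    rw [h9, h10] at h8
    have h11 : Module.finrank K Ω = c0 * Module.finrank K M := by exact_mod_cast h8
    have h12 : 0 < Module.finrank K M := Module.finrank_pos
    rw [← hq3, mul_comm] at h11
    exact (Nat.eq_of_mul_eq_mul_right h12 h11).symm
  have hnorm : Algebra.norm K (algebraMap L Ω (θ D')) =
      Algebra.norm K (θ D') ^ Module.finrank L Ω := by
    rw [← Algebra.norm_norm (R := K) (S := L) (A := Ω), Algebra.norm_algebraMap, map_pow]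
  have hNL0 : Algebra.norm K (θ D') ≠ 0 := by
    rwa [Ne, Algebra.norm_eq_zero_iff]
  rw [hW.2, hW.2, hnorm, hc0', ← hq1, ← hq2, P.ord_pow] at h5
  rw [P.ord_mul hNL0 (pow_ne_zero _ hε0), P.ord_pow, P.ord_pow]
  have he : (0 : ℝ) < e := by exact_mod_cast hW.1
  have hq : (0 : ℝ) < Module.finrank L Ω := by exact_mod_cast Module.finrank_pos
  have h8 : ((Module.finrank L Ω : ℝ) * e) * (((Module.finrank K L * P.ord z0 : ℤ) : ℝ) -
      ((m * Module.finrank K L : ℕ) : ℝ) * δ P) ≤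
      ((Module.finrank L Ω : ℝ) * e) * ((P.ord (Algebra.norm K (θ D')) +
        ((m * Module.finrank M L : ℕ) : ℤ) * P.ord ε : ℤ) : ℝ) := by
    push_cast at h5 ⊢
    linarith
  have h9 := le_of_mul_le_mul_left h8 (mul_pos hq he)
  exact_mod_cast h9

end

end Pool.Agent.U192.PE
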