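import Pool.Agent.U192.PN.Form
import Pool.Agent.U192.PE.Indep
import Pool.Agent.U192.PE.Norm

/-!
Norms of pluricanonical forms: the dimensions of the spaces of sections.
-/

set_option autoImplicit false
set_option linter.overlappingInstances false
set_option linter.unusedSectionVars false

open FF Pool.Agent.W602.GT Pool.Agent.W603.LV Pool.Agent.W619.PQ Pool.Agent.Y172
open Pool.Agent.W619.TW (HasIndep)
open Pool.Agent.Y174 (PairSec PairKod PairNum IsPull IsPullFib LiesOn)

namespace Pool.Agent.U192.PE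

open Pool.Agent.U192.NM (det_one' pow_form pow_form_pluri)
open Pool.Agent.U192.PN (pow_form_ge)

section

variable {k L : Type} [Field k] [Field L] [Algebra k L]

theorem pluri_comb {n m N : ℕ} {θ : Fin N → (Fin n → Derivation k L L) → L}
    (hθ : ∀ l, IsPluri m (θ l)) (c : Fin N → k) :
    IsPluri m (fun G => ∑ l, c l • θ l G) := by
  intro A G
  change ∑ l, c l • θ l _ = _
  rw [Finset.mul_sum]
  refine Finset.sum_congr rfl fun l _ => ?_
  have h1 : θ l (fun i => ∑ j, A i j • G j) = A.det ^ m * θ l G := hθ l A G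
  rw [h1, mul_smul_comm]

/-- linearly independent forms have linearly independent values -/
theorem values_indep {n m N : ℕ} {θ : Fin N → (Fin n → Derivation k L L) → L}
    (hθ : ∀ l, IsPluri m (θ l)) (hli : LinearIndependent k θ) {y : Fin n → L}
    {D : Fin n → Derivation k L L} (hy : IsTranscendenceBasis k y)
    (hD : ∀ i j, D i (y j) = if i = j then 1 else 0) [CharZero k] :
    LinearIndependent k fun l => θ l D := by
  rw [Fintype.linearIndependent_iff] at hli ⊢
  intro g hg
  refine hli g ?_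
  funext G
  rw [Finset.sum_apply]
  have h1 := pluri_coord hy hD (pluri_comb hθ g) G
  have h2 : (∑ l, g l • θ l D) = 0 := hg
  simp only [h2, mul_zero] at h1
  exact h1

end

section

variable {K M L : Type} [Field K] [Field M] [Field L]
  [Algebra ℂ K] [Algebra ℂ M] [Algebra ℂ L] [Algebra K M] [Algebra K L] [Algebra M L]
  [IsScalarTower ℂ K M] [IsScalarTower ℂ K L] [IsScalarTower ℂ M L]
  [IsScalarTower K M L]
  [FiniteDimensional K M] [FiniteDimensional K L]
  [Algebra.EssFiniteType ℂ K] [Algebra.EssFiniteType ℂ L]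

theorem RegS.comb {δ : Place ℂ K → ℝ} {n m d N : ℕ} {S : Finset L} {f : Fin d → L}
    {θ : Fin N → (Fin n → Derivation ℂ L L) → L} (hr : ∀ l, RegS δ M n m S f (θ l))
    (c : Fin N → ℂ) : RegS δ M n m S f (fun G => ∑ l, c l • θ l G) := by
  classical
  intro P Q e hQ hQd c' hc' G hG
  by_cases h0 : ∑ l, c l • θ l G = 0
  · exact Or.inl h0
  right
  obtain ⟨l0, -, hl0⟩ := Finset.exists_ne_zero_of_sum_ne_zero h0
  have hl0' : θ l0 G ≠ 0 := fun h => hl0 (by rw [h, smul_zero])
  obtain ⟨s1, hs1, hs10, -⟩ := (hr l0 P Q e hQ hQd c' hc' G hG).resolve_left hl0'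
  obtain ⟨s, hs, hmin⟩ := Finset.exists_min_image (S.filter (· ≠ 0)) (fun s => Q.ord s)
    ⟨s1, Finset.mem_filter.2 ⟨hs1, hs10⟩⟩
  rw [Finset.mem_filter] at hs
  refine ⟨s, hs.1, hs.2, fun j => ?_⟩
  obtain ⟨B, hB⟩ : ∃ B : ℝ, B = (m : ℝ) * (c' - 1) + Q.ord s - 2 * m * Q.ord (f j) -
      m * e * δ P := ⟨_, rfl⟩
  have h2 : ∀ l ∈ Finset.univ, Ge Q ⌈B⌉ (c l • θ l G) := by
    intro l _
    have h4 : Ge Q 0 (algebraMap ℂ L (c l)) := Pool.Agent.W603.LV.Ge.const (c l)
    have h3 : Ge Q ⌈B⌉ (θ l G) := by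
      rcases hr l P Q e hQ hQd c' hc' G hG with h5 | ⟨s', hs', hs0', h5⟩
      · exact Or.inl h5
      · right
        have h6 : (Q.ord s : ℝ) ≤ Q.ord s' := by
          exact_mod_cast hmin s' (Finset.mem_filter.2 ⟨hs', hs0'⟩)
        have h7 := h5 j
        rw [Int.ceil_le, hB]
        linarith
    have h5 := h4.mul h3
    rw [zero_add] at h5
    rw [Algebra.smul_def]
    exact h5
  have h3 := (Ge.sum _ _ h2).resolve_left h0
  rw [Int.ceil_le, hB] at h3
  linarith

/-- **The dimensions of the spaces of sections.** -/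
theorem indep_of_norm {d : ℕ} (f : Module.Basis (Fin d) K M) (S : Finset L) (hS : ∃ s ∈ S, s ≠ 0) :
    ∃ Z : Finset K, (S = {1} → Z = {1}) ∧
    ∀ (δ : Place ℂ K → ℝ) (n m N : ℕ), Algebra.trdeg ℂ L = n →
    ∀ θ : Fin N → (Fin n → Derivation ℂ L L) → L, (∀ l, IsPluri m (θ l)) →
    (∀ l, RegS δ M n m S (fun j => algebraMap M L (f j)) (θ l)) → LinearIndependent ℂ θ →
    HasIndep ℂ K n N (PairSec ℂ K n δ Z (m * Module.finrank K L) 1) := by
  classical
  have hcK : CharZero K := charZero_of_injective_algebraMap (algebraMap ℂ K).injective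
  -- the Galois closure
  let Ω := IntermediateField.normalClosure K L (AlgebraicClosure L)
  have hfin : FiniteDimensional K Ω := inferInstance
  have hnorm : Normal K Ω := inferInstance
  have hgal : IsGalois K Ω := IsGalois.mk
  let ik : Algebra ℂ Ω := ((algebraMap L Ω).comp (algebraMap ℂ L)).toAlgebra
  let im : Algebra M Ω := ((algebraMap L Ω).comp (algebraMap M L)).toAlgebra
  have ht1 : IsScalarTower M L Ω := IsScalarTower.of_algebraMap_eq fun _ => rfl
  have ht2 : IsScalarTower ℂ L Ω := IsScalarTower.of_algebraMap_eq fun _ => rfl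
  have ht3 : IsScalarTower ℂ K Ω := IsScalarTower.of_algebraMap_eq fun c => by
    change algebraMap L Ω (algebraMap ℂ L c) = _
    rw [IsScalarTower.algebraMap_apply ℂ K L, ← IsScalarTower.algebraMap_apply K L Ω]
  have ht4 : IsScalarTower ℂ M Ω := IsScalarTower.of_algebraMap_eq fun c => by
    change algebraMap L Ω (algebraMap ℂ L c) = algebraMap L Ω (algebraMap M L (algebraMap ℂ M c))
    rw [← IsScalarTower.algebraMap_apply ℂ M L]
  have ht5 : IsScalarTower K M Ω := IsScalarTower.of_algebraMap_eq fun c => by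
    change _ = algebraMap L Ω (algebraMap M L (algebraMap K M c))
    rw [← IsScalarTower.algebraMap_apply K M L, ← IsScalarTower.algebraMap_apply K L Ω]
  obtain ⟨ε, hε0, hε⟩ := norm_reg (k := ℂ) (K := K) (M := M) L Ω f
  obtain ⟨Z, hZS, hZ⟩ := hε S hS
  refine ⟨Z, hZS, fun δ n m N hn θ hθ hr hli => ?_⟩
  have hnK : Algebra.trdeg ℂ K = n := Pool.Agent.Y184.NT.trdeg_below (K := L) hn
  obtain ⟨y, D, hy, hD⟩ := exists_crd hnK
  choose D' hD' using fun i => exists_lift (L := L) hnK (D i)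
  have hyL : IsTranscendenceBasis ℂ (fun j => algebraMap K L (y j)) := hy.algebraMap_comp
  have hDL := lift_dual hD hD'
  have hli' := values_indep hθ hli hyL hDL
  obtain ⟨c, hc⟩ := norm_indep (K := K) hli'
  obtain ⟨q, hq⟩ : ∃ q : ℕ, q = Module.finrank K L := ⟨_, rfl⟩
  obtain ⟨ϑ, hϑ⟩ : ∃ ϑ : Fin N → (Fin n → Derivation ℂ L L) → L, ∀ j, ϑ j =
      fun G => ∑ l, c j l • θ l G := ⟨_, fun _ => rfl⟩
  have hϑp : ∀ j, IsPluri m (ϑ j) := by
    intro j
    rw [hϑ]
    exact pluri_comb hθ _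
  have hϑr : ∀ j, RegS δ M n m S (fun j => algebraMap M L (f j)) (ϑ j) := by
    intro j
    rw [hϑ]
    exact RegS.comb hr _
  have hc' : LinearIndependent ℂ fun j => Algebra.norm K (ϑ j D') := by
    have h1 : (fun j => Algebra.norm K (ϑ j D')) =
        fun j => Algebra.norm K (∑ l, c j l • θ l D') := by
      funext j
      rw [hϑ]
    rw [h1]
    exact hc
  have hϑ0 : ∀ j, ϑ j D' ≠ 0 := by
    intro j h0
    have h1 := hc'.ne_zero j
    simp only [h0, Algebra.norm_zero] at h1
    exact h1 rfl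
  obtain ⟨T, hT⟩ : ∃ T : Fin N → K, ∀ i, T i =
      Algebra.norm K (ϑ i D') * ε ^ (m * Module.finrank M L) := ⟨_, fun _ => rfl⟩
  -- regularity
  have hTreg : ∀ i, ∀ P : Place ℂ K, Divisorial n P → ∀ G : Fin n → Derivation ℂ K K,
      (∀ i, DerReg P (G i)) → pow_form (m * q) y (T i) G = 0 ∨ ∃ z ∈ Z, z ≠ 0 ∧
        (P.ord z : ℝ) - ((m * q : ℕ) : ℝ) * δ P ≤ P.ord (pow_form (m * q) y (T i) G) := by
    intro i P hP G hG
    obtain ⟨yP, DP, i0, hl⟩ := exists_loc hnK hP
    choose DP' hDP' using fun i => exists_lift (L := L) hnK (DP i)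
    obtain ⟨B, hB⟩ : ∃ B : Matrix (Fin n) (Fin n) K, B = Matrix.of fun i j => DP i (y j) :=
      ⟨_, rfl⟩
    have h1 : ϑ i DP' = algebraMap K L (B.det ^ m) * ϑ i D' := by
      rw [pluri_coord hyL hDL (hϑp i) DP', map_pow, RingHom.map_det]
      congr 3
      rw [hB]
      ext i j
      rw [Matrix.of_apply, RingHom.mapMatrix_apply, Matrix.map_apply, Matrix.of_apply]
      exact hDP' i (y j)
    have hdualP := lift_dual hl.dual hDP'
    have hθP : ϑ i DP' ≠ 0 := by
      intro h0
      apply hϑ0 i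
      rw [pluri_coord (hl.bas.algebraMap_comp (A := L)) hdualP (hϑp i) D', h0, mul_zero]
    obtain ⟨z, hz, hz0, h2⟩ := hZ δ n m hn (ϑ i) (hϑp i) (hϑr i) P hP yP DP i0 hl DP' hDP' hθP
    have h3 : pow_form (m * q) y (T i) DP =
        Algebra.norm K (ϑ i DP') * ε ^ (m * Module.finrank M L) := by
      have h5 : Algebra.norm K (algebraMap K L (B.det ^ m) * ϑ i D') =
          (B.det ^ m) ^ q * Algebra.norm K (ϑ i D') := by
        rw [MonoidHom.map_mul, Algebra.norm_algebraMap, ← hq]
      rw [pow_form, ← hB, hT, h1, h5, ← pow_mul, mul_assoc]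
    rcases pow_form_ge (N := m * q) (y := y) (t := T i) hl
      (c := (P.ord z : ℝ) - ((m * q : ℕ) : ℝ) * δ P) (by
        right
        rw [h3, hq]
        exact h2) G hG with h4 | h4
    · exact Or.inl h4
    · exact Or.inr ⟨z, hz, hz0, h4⟩
  refine ⟨fun j => pow_form (m * q) y (T j), ?_, fun l => ⟨by
    rw [← hq]
    exact pow_form_pluri _ y _, fun P hP G hG => ?_⟩⟩
  · have hval : ∀ t, pow_form (m * q) y t D = t := by
      intro t
      rw [pow_form, det_one' hD, one_pow, one_mul]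
    rw [Fintype.linearIndependent_iff]
    intro g hg
    refine Fintype.linearIndependent_iff.1 hc' g ?_
    have h1 := congrFun hg D
    rw [Finset.sum_apply] at h1
    have h2 : (∑ i, g i • Algebra.norm K (ϑ i D')) * ε ^ (m * Module.finrank M L) = 0 := by
      rw [Finset.sum_mul]
      refine Eq.trans (Finset.sum_congr rfl fun i _ => ?_) h1
      rw [Pi.smul_apply, hval, hT, smul_mul_assoc]
    exact (mul_eq_zero.1 h2).resolve_right (pow_ne_zero _ hε0)
  · rcases hTreg l P hP G hG with h | ⟨z, hz, hz0, h⟩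
    · exact Or.inl h
    · refine Or.inr ⟨z, hz, hz0, ?_⟩
      rw [← hq, Nat.cast_one, one_mul]
      exact h

end

end Pool.Agent.U192.PE
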