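import Pool.Agent.U192.PE.Prod

/-!
Varieties dominated by a product `X × Y` such that the map to `W × X` is injective.
-/

set_option autoImplicit false
set_option linter.overlappingInstances false
set_option linter.unusedSectionVars false

open FF IntermediateField Pool.Agent.W619.PQ Pool.Agent.W603.LV Pool.Agent.Y172
open Pool.Agent.W602.GT (Divisorial DerReg IsPluri KodGe)
open Pool.Agent.W619.TW (HasIndep)
open Pool.Agent.Y174 (PairSec PairKod PairNum IsPull IsPullFib LiesOn)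
open Pool.Agent.U192.PB (pf cz pf_change pf_pluri up pol_over closed_in indep_pow basis_over)
open Pool.Agent.U192.NM (dg pol)

namespace Pool.Agent.U192.PE

/-- sections of `m (K_X - 2 ∑ (δ i - 1) H i) + A` on the first factor, where `A` is given by the
finite set `S` -/
def SecU (K : Type) {L : Type} [Field K] [Field L] [Algebra K L] [Algebra ℂ L]
    {U : IntermediateField ℂ L} (d m : ℕ) {κ : ℕ} (X : Fin κ → Finset U) (S : Finset U)
    (α : (Fin d → Derivation ℂ U U) → U) : Prop :=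
  IsPluri m α ∧ ∀ P : Place ℂ U, Divisorial d P → ∀ G : Fin d → Derivation ℂ U U,
    (∀ i, DerReg P (G i)) → α G = 0 ∨ ∃ s ∈ S, s ≠ 0 ∧
      ∑ i, 2 * (m : ℤ) * ((dg K (up U X) i : ℤ) - 1) * pol (X i) P + P.ord s ≤ P.ord (α G)

/-- the boundary of `W` is at least the boundary of `Y` along the divisors which are mapped onto
`X` -/
def BdGe {K L : Type} [Field K] [Field L] [Algebra ℂ K] [Algebra ℂ L] [Algebra K L]
    (U T : IntermediateField ℂ L) (n : ℕ) (δ : Place ℂ K → ℝ) (δT : Place ℂ T → ℝ) : Prop :=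
  ∀ (P : Place ℂ K) (Q : Place ℂ L) (v : Place ℂ T) (e e' : ℕ), Over Q P e → Over Q v e' →
    Divisorial n Q → (∀ z ∈ U, Q.ord z = 0) → 1 - e' * (1 - δT v) ≤ e * δ P

section

variable {K L : Type} [Field K] [Field L] [Algebra ℂ K] [Algebra ℂ L] [Algebra K L]
  [IsScalarTower ℂ K L] [FiniteDimensional K L] (U T : IntermediateField ℂ L)
  [Algebra.EssFiniteType ℂ U] [Algebra.EssFiniteType ℂ T]

/-- the products of the twists -/
noncomputable def SS (SU : Finset U) (ST : Finset T) : Finset L :=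
  Set.Finite.toFinset (Set.Finite.image2 (fun (s : U) (t : T) => (s : L) * (t : L))
    SU.finite_toSet ST.finite_toSet)

omit [Algebra.EssFiniteType ℂ U] [Algebra.EssFiniteType ℂ T] in
theorem mem_SS {SU : Finset U} {ST : Finset T} {s : U} {t : T} (hs : s ∈ SU) (ht : t ∈ ST) :
    (s : L) * (t : L) ∈ SS U T SU ST := by
  unfold SS
  rw [Set.Finite.mem_toFinset]
  exact ⟨s, hs, t, ht, rfl⟩

omit [Algebra.EssFiniteType ℂ U] [Algebra.EssFiniteType ℂ T] in
theorem SS_one : SS U T {1} {1} = {1} := by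
  ext z
  unfold SS
  rw [Set.Finite.mem_toFinset, Finset.mem_singleton]
  constructor
  · rintro ⟨s, hs, t, ht, rfl⟩
    rw [Finset.mem_coe, Finset.mem_singleton] at hs ht
    rw [hs, ht]
    simp
  · rintro rfl
    exact ⟨1, by simp, 1, by simp, by simp⟩

theorem form_pos {d r m : ℕ} (hU : Algebra.trdeg ℂ U = d) (hT : Algebra.trdeg ℂ T = r)
    (hL : Algebra.trdeg ℂ L = (d + r : ℕ)) {κ : ℕ} {X : Fin κ → Finset U} {SU : Finset U}
    {ST : Finset T} (hSU : ∃ s ∈ SU, s ≠ 0) (hST : ∃ s ∈ ST, s ≠ 0)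
    {δ : Place ℂ K → ℝ} (hδ0 : ∀ P, 0 ≤ δ P) {δT : Place ℂ T → ℝ}
    (hδT1 : ∀ P, Divisorial r P → δT P ≤ 1) (hbd : BdGe U T (d + r) δ δT)
    {α : (Fin d → Derivation ℂ U U) → U} (hα : SecU K d m X SU α)
    {β : (Fin r → Derivation ℂ T T) → T} (hβ : PairSec ℂ T r δT ST m 1 β)
    {x : Fin d → U} {t : Fin r → T} {Ex : Fin d → Derivation ℂ U U}
    {Et : Fin r → Derivation ℂ T T} (hx : IsTranscendenceBasis ℂ x)
    (ht : IsTranscendenceBasis ℂ t) (hEx : ∀ i j, Ex i (x j) = if i = j then 1 else 0)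
    (hEt : ∀ i j, Et i (t j) = if i = j then 1 else 0) :
    (∀ (P : Place ℂ K) (Q : Place ℂ L) (e : ℕ), Over Q P e → Divisorial (d + r) Q →
      (∃ z ∈ U, Q.ord z ≠ 0) → ∀ c : ℕ, (∀ z ∈ U, (c : ℤ) ∣ Q.ord z) →
      ∀ G : Fin (d + r) → Derivation ℂ L L, (∀ i, DerReg Q (G i)) →
      pf x t m (α Ex) (β Et) G = 0 ∨ ∃ s ∈ SS U T SU ST, s ≠ 0 ∧
        (m : ℝ) * (c - 1) + (∑ i, 2 * m * ((dg K (up U X) i : ℤ) - 1) * pol (up U X i) Q : ℤ) +
          Q.ord s ≤ Q.ord (pf x t m (α Ex) (β Et) G) + m * e * δ P) ∧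
    (∀ (P : Place ℂ K) (Q : Place ℂ L) (e : ℕ), Over Q P e → Divisorial (d + r) Q →
      (∀ z ∈ U, Q.ord z = 0) → ∀ G : Fin (d + r) → Derivation ℂ L L, (∀ i, DerReg Q (G i)) →
      pf x t m (α Ex) (β Et) G = 0 ∨ ∃ s ∈ SS U T SU ST, s ≠ 0 ∧
        (Q.ord s : ℝ) ≤ Q.ord (pf x t m (α Ex) (β Et) G) + m * e * δ P) := by
  have hm0 : (0 : ℝ) ≤ m := Nat.cast_nonneg m
  obtain ⟨w, hw⟩ : ∃ w : Place ℂ U → ℤ, ∀ P, w P = ∑ i, 2 * (m : ℤ) *
      ((dg K (up U X) i : ℤ) - 1) * pol (X i) P := ⟨_, fun _ => rfl⟩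
  have hwQ : ∀ (Q : Place ℂ L) (P : Place ℂ U) (e : ℕ), Over Q P e →
      ∑ i, 2 * (m : ℤ) * ((dg K (up U X) i : ℤ) - 1) * pol (up U X i) Q = e * w P := by
    intro Q P e hQ
    rw [hw, Finset.mul_sum]
    refine Finset.sum_congr rfl fun i _ => ?_
    unfold up
    rw [pol_over hQ]
    push_cast
    ring
  have key := fun (Q : Place ℂ L) (hQ : Divisorial (d + r) Q)
    (G : Fin (d + r) → Derivation ℂ L L) (hG : ∀ i, DerReg Q (G i))
    (hne : pf x t m (α Ex) (β Et) G ≠ 0) =>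
    prod_tw hU hT hL hα.1 hβ.1 (w := w) hSU hST (fun P hP G hG => by
      rw [hw]
      exact hα.2 P hP G hG) hδT1 (fun P hP G hG => by
        rcases hβ.2 P hP G hG with h | ⟨s, hs, hs0, h⟩
        · exact Or.inl h
        · refine Or.inr ⟨s, hs, hs0, ?_⟩
          rwa [Nat.cast_one, one_mul] at h) hx ht hEx hEt hQ hG hne
  have hss : ∀ {Q : Place ℂ L} {s : U} {s' : T}, s ≠ 0 → s' ≠ 0 →
      (Q.ord ((s : L) * (s' : L)) : ℝ) = Q.ord (s : L) + Q.ord (s' : L) := by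
    intro Q s s' hs hs'
    rw [Q.ord_mul (by rwa [Ne, ZeroMemClass.coe_eq_zero]) (by rwa [Ne, ZeroMemClass.coe_eq_zero])]
    push_cast
    rfl
  have hne0 : ∀ {s : U} {s' : T}, s ≠ 0 → s' ≠ 0 → (s : L) * (s' : L) ≠ 0 := by
    intro s s' hs hs'
    exact mul_ne_zero (by rwa [Ne, ZeroMemClass.coe_eq_zero]) (by
      rwa [Ne, ZeroMemClass.coe_eq_zero])
  constructor
  · intro P Q e hQP hQ hnc c hc G hG
    by_cases hne : pf x t m (α Ex) (β Et) G = 0
    · exact Or.inl hne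
    right
    have h6 : (0 : ℝ) ≤ m * e * δ P := mul_nonneg (mul_nonneg hm0 (Nat.cast_nonneg _)) (hδ0 P)
    obtain ⟨s, hs, hs0, s', hs', hs0', ⟨P', e', hP', hPd', h1⟩ | ⟨hU0, -⟩⟩ := key Q hQ G hG hne
    · refine ⟨(s : L) * (s' : L), mem_SS U T hs hs', hne0 hs0 hs0', ?_⟩
      obtain ⟨π, hπ0, hπ⟩ := P'.surj
      have h2 : Q.ord (π : L) = e' * P'.ord π := hP'.2 π
      rw [hπ, mul_one] at h2
      have h3 := hc π π.2
      rw [h2] at h3
      have h4 : c ≤ e' := Nat.le_of_dvd hP'.1 (by exact_mod_cast h3)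
      have h4r : (c : ℝ) ≤ e' := by exact_mod_cast h4
      have h5 := mul_le_mul_of_nonneg_left (sub_le_sub_right h4r 1) hm0
      have h7 : ((∑ i, 2 * (m : ℤ) * ((dg K (up U X) i : ℤ) - 1) *
          pol (up U X i) Q : ℤ) : ℝ) = e' * w P' := by
        rw [hwQ Q P' e' hP']
        push_cast
        ring
      rw [hss hs0 hs0', h7]
      linarith
    · obtain ⟨z, hz, hz0⟩ := hnc
      exact absurd (hU0 z hz) hz0
  · intro P Q e hQP hQ hU0 G hG
    by_cases hne : pf x t m (α Ex) (β Et) G = 0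
    · exact Or.inl hne
    right
    have h6 : (0 : ℝ) ≤ m * e * δ P := mul_nonneg (mul_nonneg hm0 (Nat.cast_nonneg _)) (hδ0 P)
    obtain ⟨s, hs, hs0, s', hs', hs0', ⟨P', e', hP', hPd', h1⟩ | ⟨-, ⟨-, h1⟩ |
      ⟨P', e', hP', hPd', h1⟩⟩⟩ := key Q hQ G hG hne
    · obtain ⟨π, hπ0, hπ⟩ := P'.surj
      have h2 : Q.ord (π : L) = e' * P'.ord π := hP'.2 π
      rw [hπ, mul_one, hU0 _ π.2] at h2
      have := hP'.1
      omega
    · refine ⟨(s : L) * (s' : L), mem_SS U T hs hs', hne0 hs0 hs0', ?_⟩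
      rw [hss hs0 hs0']
      linarith
    · refine ⟨(s : L) * (s' : L), mem_SS U T hs hs', hne0 hs0 hs0', ?_⟩
      have h2 := hbd P Q P' e e' hQP hP' hQ hU0
      have h3 := mul_le_mul_of_nonneg_left h2 hm0
      rw [hss hs0 hs0']
      linarith

theorem adjoin_up {κ : ℕ} {X : Fin κ → Finset U}
    (hX : IntermediateField.adjoin ℂ (⋃ i, (X i : Set U)) = ⊤) :
    IntermediateField.adjoin ℂ (⋃ i, (up U X i : Set L)) = U := by
  have h1 := congrArg (IntermediateField.map U.val) hX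
  rw [IntermediateField.adjoin_map, ← AlgHom.fieldRange_eq_map,
    IntermediateField.fieldRange_val] at h1
  refine Eq.trans ?_ h1
  congr 1
  rw [Set.image_iUnion]
  refine Set.iUnion_congr fun i => ?_
  unfold up
  rw [Finset.coe_map]
  rfl

theorem ess_prod (hsup : U ⊔ T = ⊤) : Algebra.EssFiniteType ℂ L := by
  have h1 : Algebra.EssFiniteType ℂ ↥(U ⊔ T) := essFiniteType_iff.2
    (fg_sup (essFiniteType_iff.1 inferInstance) (essFiniteType_iff.1 inferInstance))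
  rw [hsup] at h1
  exact (Algebra.EssFiniteType.iff_of_algEquiv
    (IntermediateField.topEquiv (F := ℂ) (E := L))).1 h1

/-- values of products of forms -/
theorem pf_val {d r : ℕ} {x : Fin d → U} {t : Fin r → T} {D : Fin (d + r) → Derivation ℂ L L}
    (hD : ∀ i j, D i (cz x t j) = if i = j then 1 else 0) (m : ℕ) (a : U) (b : T) :
    pf (L := L) x t m a b D = (a : L) * (b : L) := by
  unfold pf
  have h1 : (Matrix.of fun i j => D i (cz x t j)).det = 1 := by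
    have h2 : (Matrix.of fun i j => D i (cz x t j)) =
        (1 : Matrix (Fin (d + r)) (Fin (d + r)) L) := by
      ext i j
      rw [Matrix.of_apply, hD, Matrix.one_apply]
    rw [h2, Matrix.det_one]
  rw [h1, one_pow, one_mul]

/-- **The norm inequality for products.** -/
theorem norm_prod {d r : ℕ} (hsup : U ⊔ T = ⊤) (hU : Algebra.trdeg ℂ U = d)
    (hT : Algebra.trdeg ℂ T = r) (hL : Algebra.trdeg ℂ L = (d + r : ℕ))
    (hKU : IntermediateField.adjoin K (U : Set L) = ⊤) {κ : ℕ} (X : Fin κ → Finset U)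
    (hX : IntermediateField.adjoin ℂ (⋃ i, (X i : Set U)) = ⊤) (SU : Finset U) (ST : Finset T)
    (hSU : ∃ s ∈ SU, s ≠ 0) (hST : ∃ s ∈ ST, s ≠ 0) :
    ∃ Z : Finset K, (SU = {1} → ST = {1} → Z = {1}) ∧
    ∀ (δ : Place ℂ K → ℝ) (δT : Place ℂ T → ℝ), (∀ P, 0 ≤ δ P) →
    (∀ P, Divisorial r P → δT P ≤ 1) → BdGe U T (d + r) δ δT → ∀ m N1 N2 : ℕ,
    HasIndep ℂ U d N1 (SecU K d m X SU) → HasIndep ℂ T r N2 (PairSec ℂ T r δT ST m 1) →
    HasIndep ℂ K (d + r) (N1 * N2) (PairSec ℂ K (d + r) δ Z (m * Module.finrank K L) 1) := by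
  classical
  have hessL : Algebra.EssFiniteType ℂ L := ess_prod U T hsup
  have hessK : Algebra.EssFiniteType ℂ K := Pool.Agent.TH466.QG.ess_below (K := L)
  obtain ⟨x, hx⟩ := Pool.Agent.W636.PG.exists_basis ℂ U d hU
  obtain ⟨t, ht⟩ := Pool.Agent.W636.PG.exists_basis ℂ T r hT
  obtain ⟨Ex, hEx⟩ := Pool.Agent.W636.PG.exists_duals ℂ U d x hx
  obtain ⟨Et, hEt⟩ := Pool.Agent.W636.PG.exists_duals ℂ T r t ht
  obtain ⟨D, hD⟩ := Pool.Agent.W636.PG.exists_duals ℂ L (d + r) (cz x t)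
    (Pool.Agent.Y174.basis_append hx (basis_over hsup hU hL ht))
  obtain ⟨Z, hZ1, hZ⟩ := norm_ineq_inj (K := K) U hKU (up U X) (adjoin_up U hX) (SS U T SU ST) (by
    obtain ⟨s, hs, hs0⟩ := hSU
    obtain ⟨s', hs', hs0'⟩ := hST
    exact ⟨_, mem_SS U T hs hs', mul_ne_zero (by rwa [Ne, ZeroMemClass.coe_eq_zero]) (by
      rwa [Ne, ZeroMemClass.coe_eq_zero])⟩)
  refine ⟨Z, fun h1 h2 => hZ1 (by rw [h1, h2, SS_one]), ?_⟩
  rintro δ δT hδ0 hδT1 hbd m N1 N2 ⟨α, hαi, hα⟩ ⟨β, hβi, hβ⟩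
  have hpf := fun p : Fin N1 × Fin N2 => form_pos (K := K) U T hU hT hL hSU hST hδ0 hδT1 hbd
    (hα p.1) (hβ p.2) hx ht hEx hEt
  refine hZ δ (d + r) m (N1 * N2) hL
    (fun l => pf x t m (α (finProdFinEquiv.symm l).1 Ex) (β (finProdFinEquiv.symm l).2 Et))
    (fun l => pf_pluri x t _ _ _) (fun l => (hpf _).1) (fun l => (hpf _).2) ?_
  have h1 : LinearIndependent ℂ fun i => α i Ex := values_indep (fun l => (hα l).1) hαi hx hEx
  have h2 : LinearIndependent ℂ fun j => β j Et := values_indep (fun l => (hβ l).1) hβi ht hEt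
  have h3 := indep_mul hsup hU hT hL h1 h2
  have h4 : LinearIndependent ℂ fun p : Fin N1 × Fin N2 =>
      pf (L := L) x t m (α p.1 Ex) (β p.2 Et) := by
    rw [Fintype.linearIndependent_iff]
    intro g hg
    refine Fintype.linearIndependent_iff.1 h3 g ?_
    have h5 := congrFun hg D
    rw [Finset.sum_apply] at h5
    refine Eq.trans (Finset.sum_congr rfl fun p _ => ?_) h5
    rw [Pi.smul_apply, pf_val U T hD]
  exact h4.comp _ (Equiv.injective _)

/-- **The Iitaka inequality for products.** -/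
theorem kod_prod {d r : ℕ} (hsup : U ⊔ T = ⊤) (hU : Algebra.trdeg ℂ U = d)
    (hT : Algebra.trdeg ℂ T = r) (hL : Algebra.trdeg ℂ L = (d + r : ℕ))
    (hKU : IntermediateField.adjoin K (U : Set L) = ⊤) {κ : ℕ} (X : Fin κ → Finset U)
    (hX : IntermediateField.adjoin ℂ (⋃ i, (X i : Set U)) = ⊤)
    {δ : Place ℂ K → ℝ} {δT : Place ℂ T → ℝ} (hδ0 : ∀ P, 0 ≤ δ P)
    (hδT1 : ∀ P, Divisorial r P → δT P ≤ 1) (hbd : BdGe U T (d + r) δ δT)
    {m a b : ℕ} (hm : 1 ≤ m) {α : Fin (a + 1) → (Fin d → Derivation ℂ U U) → U}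
    (hα : ∀ j, SecU K d m X {1} (α j)) {G0 : Fin d → Derivation ℂ U U} (hG0 : α 0 G0 ≠ 0)
    (hind : AlgebraicIndependent ℂ fun j : Fin a => α j.succ G0 / α 0 G0)
    (hY : PairKod ℂ T r δT b) : PairKod ℂ K (d + r) δ (a + b) := by
  classical
  have hessL : Algebra.EssFiniteType ℂ L := ess_prod U T hsup
  have hessK : Algebra.EssFiniteType ℂ K := Pool.Agent.TH466.QG.ess_below (K := L)
  obtain ⟨N, hN, ω, hω, D1, hD1, hindY⟩ := hY
  obtain ⟨x, hx⟩ := Pool.Agent.W636.PG.exists_basis ℂ U d hU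
  obtain ⟨t, ht⟩ := Pool.Agent.W636.PG.exists_basis ℂ T r hT
  obtain ⟨Ex, hEx⟩ := Pool.Agent.W636.PG.exists_duals ℂ U d x hx
  obtain ⟨Et, hEt⟩ := Pool.Agent.W636.PG.exists_duals ℂ T r t ht
  obtain ⟨D, hD⟩ := Pool.Agent.W636.PG.exists_duals ℂ L (d + r) (cz x t)
    (Pool.Agent.Y174.basis_append hx (basis_over hsup hU hL ht))
  have hα' : ∀ j, SecU K d (m * N) X {1} (fun G => α j G ^ N) := by
    intro j
    refine ⟨pluri_pow (hα j).1 N, fun P hP G hG => ?_⟩
    rcases (hα j).2 P hP G hG with h | ⟨s, hs, hs0, h⟩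
    · left
      change α j G ^ N = 0
      rw [h, zero_pow (by omega)]
    · refine Or.inr ⟨s, hs, hs0, ?_⟩
      rw [Finset.mem_singleton] at hs
      rw [hs, P.ord_one, add_zero] at h ⊢
      rw [P.ord_pow]
      have h3 := mul_le_mul_of_nonneg_left h (Int.natCast_nonneg N)
      refine le_trans (le_of_eq ?_) h3
      rw [Finset.mul_sum]
      refine Finset.sum_congr rfl fun i _ => ?_
      push_cast
      ring
  have hβ' : ∀ j, PairSec ℂ T r δT {1} (m * N) 1 (fun G => ω j G ^ m) := by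
    intro j
    refine ⟨by
      have h1 := pluri_pow (hω j).1 m
      rwa [mul_comm] at h1, fun P hP G hG => ?_⟩
    rcases (hω j).2 P hP G hG with h | ⟨s, hs, hs0, h⟩
    · left
      change ω j G ^ m = 0
      rw [h, zero_pow (by omega)]
    · refine Or.inr ⟨s, hs, hs0, ?_⟩
      rw [Finset.mem_singleton] at hs
      rw [hs, P.ord_one] at h ⊢
      rw [P.ord_pow]
      have h1 := mul_le_mul_of_nonneg_left h (Nat.cast_nonneg (α := ℝ) m)
      push_cast at h1 ⊢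
      linarith
  have h11 : ∃ s ∈ ({1} : Finset U), s ≠ 0 := ⟨1, Finset.mem_singleton_self _, one_ne_zero⟩
  have h12 : ∃ s ∈ ({1} : Finset T), s ≠ 0 := ⟨1, Finset.mem_singleton_self _, one_ne_zero⟩
  have hpf := fun (i : Fin (a + 1)) (j : Fin (b + 1)) => form_pos (K := K) U T hU hT hL h11 h12
    hδ0 hδT1 hbd (hα' i) (hβ' j) hx ht hEx hEt
  -- the forms
  obtain ⟨I, hI⟩ : ∃ I : Fin (a + b + 1) → Fin (a + 1) × Fin (b + 1), I 0 = (0, 0) ∧
      (∀ i : Fin a, I (Fin.castAdd b i).succ = (i.succ, 0)) ∧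
      ∀ j : Fin b, I (Fin.natAdd a j).succ = (0, j.succ) := by
    refine ⟨Fin.cons (0, 0) (Fin.append (fun i => (i.succ, 0)) fun j => (0, j.succ)), rfl,
      fun i => ?_, fun j => ?_⟩
    · rw [Fin.cons_succ, Fin.append_left]
    · rw [Fin.cons_succ, Fin.append_right]
  obtain ⟨hI0, hI1, hI2⟩ := hI
  have hωne : ∀ j, ω j Et ≠ 0 := by
    intro j h0
    apply hD1 j
    have h1 : ω j D1 = _ := pluri_coord ht hEt (hω j).1 D1
    rw [h1, h0, mul_zero]
  have hcoord : ∀ j, α j G0 = _ := fun j => pluri_coord hx hEx (hα j).1 G0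
  have hdet0 : (Matrix.of fun i j => G0 i (x j)).det ^ m ≠ 0 := by
    intro h0
    apply hG0
    rw [hcoord 0, h0, zero_mul]
  have hαne : α 0 Ex ≠ 0 := by
    intro h0
    apply hG0
    rw [hcoord 0, h0, mul_zero]
  have hratio : ∀ j, α j Ex / α 0 Ex = α j G0 / α 0 G0 := by
    intro j
    rw [hcoord 0, hcoord j]
    field_simp
  have hcoordY : ∀ j, ω j D1 = _ := fun j => pluri_coord ht hEt (hω j).1 D1
  have hdetY : (Matrix.of fun i j => D1 i (t j)).det ^ N ≠ 0 := by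
    intro h0
    apply hD1 0
    rw [hcoordY 0, h0, zero_mul]
  have hratioY : ∀ j, ω j Et / ω 0 Et = ω j D1 / ω 0 D1 := by
    intro j
    have h1 := hωne 0
    rw [hcoordY 0, hcoordY j]
    field_simp
  have hα0 : ((α 0 Ex ^ N : U) : L) ≠ 0 := by
    rw [Ne, ZeroMemClass.coe_eq_zero]
    exact pow_ne_zero _ hαne
  have hω0 : ((ω 0 Et ^ m : T) : L) ≠ 0 := by
    rw [Ne, ZeroMemClass.coe_eq_zero]
    exact pow_ne_zero _ (hωne 0)
  have hone : ∀ {z : L}, z ∈ SS U T ({1} : Finset U) ({1} : Finset T) → z = 1 := by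
    intro z hz
    rw [SS_one] at hz
    exact Finset.mem_singleton.1 hz
  refine kod_inj (K := K) U hKU (up U X) (adjoin_up U hX) (m := m * N) (n := d + r)
    (Nat.mul_pos hm hN) hL
    (θ := fun l => pf x t (m * N) (α (I l).1 Ex ^ N) (ω (I l).2 Et ^ m))
    (fun l => pf_pluri x t _ _ _) (fun l P Q e hQP hQ hnc c hc G hG => ?_)
    (fun l P Q e hQP hQ hnc G hG => ?_) (D0 := D) ?_ ?_
  · rcases (hpf (I l).1 (I l).2).1 P Q e hQP hQ hnc c hc G hG with h | ⟨s, hs, hs0, h⟩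
    · exact Or.inl h
    · right
      rw [hone hs, Q.ord_one, Int.cast_zero, add_zero] at h
      exact h
  · rcases (hpf (I l).1 (I l).2).2 P Q e hQP hQ hnc G hG with h | ⟨s, hs, hs0, h⟩
    · exact Or.inl h
    · right
      rw [hone hs, Q.ord_one, Int.cast_zero] at h
      exact h
  · rw [hI0, pf_val U T hD]
    exact mul_ne_zero hα0 hω0
  · have h3 : (fun l : Fin (a + b) =>
        pf (L := L) x t (m * N) (α (I l.succ).1 Ex ^ N) (ω (I l.succ).2 Et ^ m) D /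
        pf (L := L) x t (m * N) (α (I 0).1 Ex ^ N) (ω (I 0).2 Et ^ m) D) =
        Fin.append (fun i => (((α i.succ G0 / α 0 G0) ^ N : U) : L))
          fun j => (((ω j.succ D1 / ω 0 D1) ^ m : T) : L) := by
      funext l
      rw [pf_val U T hD, pf_val U T hD, hI0]
      refine Fin.addCases (fun i => ?_) (fun j => ?_) l
      · rw [hI1, Fin.append_left, mul_div_mul_right _ _ hω0, ← hratio, div_pow]
        rfl
      · rw [hI2, Fin.append_right, mul_div_mul_left _ _ hα0, ← hratioY, div_pow]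
        rfl
    rw [h3]
    exact ai_append hsup hU hT hL (indep_pow hN hind) (indep_pow hm hindY)

end

end Pool.Agent.U192.PE
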