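import Pool.Agent.U192.PE.Main

/-!
Norms of pluricanonical forms: the Kodaira dimension, relative to a field `E` which generates `L`
together with `K`.
-/

set_option autoImplicit false
set_option linter.overlappingInstances false
set_option linter.unusedSectionVars false

open FF Pool.Agent.W602.GT Pool.Agent.W603.LV Pool.Agent.W619.PQ Pool.Agent.Y172
open Pool.Agent.W619.TW (HasIndep)
open Pool.Agent.Y174 (PairSec PairKod PairNum IsPull IsPullFib LiesOn)

namespace Pool.Agent.U192.PE

open Pool.Agent.U192.NM (det_one' pow_form pow_form_pluri der_norm trdeg_adj)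
open Pool.Agent.U192.PN (pow_form_ge)

section

variable {K M L : Type} [Field K] [Field M] [Field L]
  [Algebra ℂ K] [Algebra ℂ M] [Algebra ℂ L] [Algebra K M] [Algebra K L] [Algebra M L]
  [IsScalarTower ℂ K M] [IsScalarTower ℂ K L] [IsScalarTower ℂ M L]
  [IsScalarTower K M L]
  [FiniteDimensional K M] [FiniteDimensional K L]
  [Algebra.EssFiniteType ℂ K] [Algebra.EssFiniteType ℂ L]

/-- **The Kodaira dimension through norms.** -/
theorem kod_of_regS {d : ℕ} (f : Module.Basis (Fin d) K M) {δ : Place ℂ K → ℝ} {n m a : ℕ}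
    (hm : 1 ≤ m) (hn : Algebra.trdeg ℂ L = n) {θ : Fin (a + 1) → (Fin n → Derivation ℂ L L) → L}
    (hθ : ∀ l, IsPluri m (θ l))
    (hr : ∀ l, RegS δ M n m {1} (fun j => algebraMap M L (f j)) (θ l))
    {D0 : Fin n → Derivation ℂ L L} (hD0 : θ 0 D0 ≠ 0)
    (hind : AlgebraicIndependent ℂ fun j : Fin a => θ j.succ D0 / θ 0 D0) :
    PairKod ℂ K n δ a := by
  classical
  have hcK : CharZero K := charZero_of_injective_algebraMap (algebraMap ℂ K).injective
  -- the Galois closure
  let Ω := IntermediateField.normalClosure K L (AlgebraicClosure L)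
  have hfin : FiniteDimensional K Ω := inferInstance
  have hnorm : Normal K Ω := inferInstance
  have hgal : IsGalois K Ω := IsGalois.mk
  let ik : Algebra ℂ Ω := ((algebraMap L Ω).comp (algebraMap ℂ L)).toAlgebra
  let im : Algebra M Ω := ((algebraMap L Ω).comp (algebraMap M L)).toAlgebra
  have ht1 : IsScalarTower M L Ω := IsScalarTower.of_algebraMap_eq fun _ => rfl
  have ht2 : IsScalarTower ℂ L Ω := IsScalarTower.of_algebraMap_eq fun _ => rfl
  have ht3 : IsScalarTower ℂ K Ω := IsScalarTower.of_algebraMap_eq fun c => by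
    change algebraMap L Ω (algebraMap ℂ L c) = _
    rw [IsScalarTower.algebraMap_apply ℂ K L, ← IsScalarTower.algebraMap_apply K L Ω]
  have ht4 : IsScalarTower ℂ M Ω := IsScalarTower.of_algebraMap_eq fun c => by
    change algebraMap L Ω (algebraMap ℂ L c) = algebraMap L Ω (algebraMap M L (algebraMap ℂ M c))
    rw [← IsScalarTower.algebraMap_apply ℂ M L]
  have ht5 : IsScalarTower K M Ω := IsScalarTower.of_algebraMap_eq fun c => by
    change _ = algebraMap L Ω (algebraMap M L (algebraMap K M c))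
    rw [← IsScalarTower.algebraMap_apply K M L, ← IsScalarTower.algebraMap_apply K L Ω]
  have hcΩ : CharZero Ω := charZero_of_injective_algebraMap (algebraMap ℂ Ω).injective
  have hfdL : FiniteDimensional L Ω := FiniteDimensional.right K L Ω
  have hfM : FiniteDimensional M L := FiniteDimensional.right K M L
  obtain ⟨ε, hε0, hε⟩ := norm_reg (k := ℂ) (K := K) (M := M) L Ω f
  obtain ⟨Z, hZ1, hZ⟩ := hε {1} ⟨1, Finset.mem_singleton_self _, one_ne_zero⟩
  rw [hZ1 rfl] at hZ
  have hnK : Algebra.trdeg ℂ K = n := Pool.Agent.Y184.NT.trdeg_below (K := L) hn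
  obtain ⟨y, D, hy, hD⟩ := exists_crd hnK
  choose D' hD' using fun i => exists_lift (L := L) hnK (D i)
  have hyL : IsTranscendenceBasis ℂ (fun j => algebraMap K L (y j)) := hy.algebraMap_comp
  have hDL := lift_dual hD hD'
  have hθD : θ 0 D' ≠ 0 := by
    intro h0
    apply hD0
    rw [pluri_coord hyL hDL (hθ 0) D0, h0, mul_zero]
  obtain ⟨x, hx⟩ : ∃ x : Fin a → L, ∀ j, x j = θ j.succ D' / θ 0 D' := ⟨_, fun _ => rfl⟩
  have hxD : ∀ j, θ j.succ D0 / θ 0 D0 = x j := by
    intro j
    have h1 := pluri_coord hyL hDL (hθ 0) D0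
    have h2 := pluri_coord hyL hDL (hθ j.succ) D0
    have h3 : (Matrix.of fun i j => D0 i (algebraMap K L (y j)) :
        Matrix (Fin n) (Fin n) L).det ^ m ≠ 0 := by
      intro h0
      apply hD0
      rw [h1, h0, zero_mul]
    rw [hx, h1, h2]
    field_simp
  have hind' : AlgebraicIndependent ℂ x := by
    have h1 : x = fun j : Fin a => θ j.succ D0 / θ 0 D0 := by
      funext j
      rw [hxD]
    rw [h1]
    exact hind
  obtain ⟨q, hq⟩ : ∃ q : ℕ, q = Module.finrank K L := ⟨_, rfl⟩
  have hq1 : 1 ≤ q := by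
    rw [hq]
    exact Module.finrank_pos
  -- the combinations
  let ι : Type := {c : Fin (a + 1) → ℂ // ∑ l, c l • θ l D' ≠ 0}
  obtain ⟨ϑ, hϑ⟩ : ∃ ϑ : ι → (Fin n → Derivation ℂ L L) → L, ∀ j, ϑ j =
      fun G => ∑ l, j.1 l • θ l G := ⟨_, fun _ => rfl⟩
  have hϑp : ∀ j, IsPluri m (ϑ j) := by
    intro j
    rw [hϑ]
    exact pluri_comb hθ _
  have hϑr : ∀ j, RegS δ M n m {1} (fun j => algebraMap M L (f j)) (ϑ j) := by
    intro j
    rw [hϑ]
    exact RegS.comb hr _
  have hϑ0 : ∀ j, ϑ j D' ≠ 0 := by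
    intro j
    rw [hϑ]
    exact j.2
  obtain ⟨T, hT⟩ : ∃ T : ι → K, ∀ i, T i =
      Algebra.norm K (ϑ i D') * ε ^ (m * Module.finrank M L) := ⟨_, fun _ => rfl⟩
  have hT0 : ∀ i, T i ≠ 0 := by
    intro i
    rw [hT]
    refine mul_ne_zero ?_ (pow_ne_zero _ hε0)
    rw [Ne, Algebra.norm_eq_zero_iff]
    exact hϑ0 i
  -- regularity
  have hTreg : ∀ i, ∀ P : Place ℂ K, Divisorial n P → ∀ G : Fin n → Derivation ℂ K K,
      (∀ i, DerReg P (G i)) → pow_form (m * q) y (T i) G = 0 ∨
        -(((m * q : ℕ) : ℝ) * δ P) ≤ P.ord (pow_form (m * q) y (T i) G) := by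
    intro i P hP
    obtain ⟨yP, DP, i0, hl⟩ := exists_loc hnK hP
    refine pow_form_ge hl ?_
    choose DP' hDP' using fun i => exists_lift (L := L) hnK (DP i)
    obtain ⟨B, hB⟩ : ∃ B : Matrix (Fin n) (Fin n) K, B = Matrix.of fun i j => DP i (y j) :=
      ⟨_, rfl⟩
    have h1 : ϑ i DP' = algebraMap K L (B.det ^ m) * ϑ i D' := by
      rw [pluri_coord hyL hDL (hϑp i) DP', map_pow, RingHom.map_det]
      congr 3
      rw [hB]
      ext i j
      rw [Matrix.of_apply, RingHom.mapMatrix_apply, Matrix.map_apply, Matrix.of_apply]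
      exact hDP' i (y j)
    have hdualP := lift_dual hl.dual hDP'
    have hθP : ϑ i DP' ≠ 0 := by
      intro h0
      apply hϑ0 i
      rw [pluri_coord (hl.bas.algebraMap_comp (A := L)) hdualP (hϑp i) D', h0, mul_zero]
    obtain ⟨z, hz, hz0, h2⟩ := hZ δ n m hn (ϑ i) (hϑp i) (hϑr i) P hP yP DP i0 hl DP' hDP' hθP
    rw [Finset.mem_singleton] at hz
    rw [hz, P.ord_one, Int.cast_zero, zero_sub] at h2
    have h3 : pow_form (m * q) y (T i) DP =
        Algebra.norm K (ϑ i DP') * ε ^ (m * Module.finrank M L) := by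
      have h5 : Algebra.norm K (algebraMap K L (B.det ^ m) * ϑ i D') =
          (B.det ^ m) ^ q * Algebra.norm K (ϑ i D') := by
        rw [MonoidHom.map_mul, Algebra.norm_algebraMap, ← hq]
      rw [pow_form, ← hB, hT, h1, h5, ← pow_mul, mul_assoc]
    right
    rw [h3, hq]
    exact h2
  -- the ratios
  have h10 : ∑ l, (Pi.single 0 1 : Fin (a + 1) → ℂ) l • θ l D' = θ 0 D' := by
    rw [Finset.sum_eq_single 0]
    · rw [Pi.single_eq_same, one_smul]
    · intro b _ hb
      rw [Pi.single_eq_of_ne hb, zero_smul]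
    · intro h
      exact absurd (Finset.mem_univ _) h
  let i1 : ι := ⟨Pi.single 0 1, by rw [h10]; exact hθD⟩
  have hi1 : ϑ i1 D' = θ 0 D' := by
    rw [hϑ]
    exact h10
  have hxT : ∀ j, ∀ c : ℂ, algebraMap ℂ L c - x j ≠ 0 → ∃ i : ι,
      ϑ i D' = (algebraMap ℂ L c - x j) * θ 0 D' := by
    intro j c hc
    have h1 : ∑ l, (fun l => c * (Pi.single 0 1 : Fin (a + 1) → ℂ) l -
        (Pi.single j.succ 1 : Fin (a + 1) → ℂ) l) l • θ l D' =
        (algebraMap ℂ L c - x j) * θ 0 D' := by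
      have h2 : ∑ l, (Pi.single j.succ 1 : Fin (a + 1) → ℂ) l • θ l D' = θ j.succ D' := by
        rw [Finset.sum_eq_single j.succ]
        · rw [Pi.single_eq_same, one_smul]
        · intro b _ hb
          rw [Pi.single_eq_of_ne hb, zero_smul]
        · intro h
          exact absurd (Finset.mem_univ _) h
      have h3 : ∑ l, (c * (Pi.single 0 1 : Fin (a + 1) → ℂ) l -
          (Pi.single j.succ 1 : Fin (a + 1) → ℂ) l) • θ l D' =
          c • ∑ l, (Pi.single 0 1 : Fin (a + 1) → ℂ) l • θ l D' -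
          ∑ l, (Pi.single j.succ 1 : Fin (a + 1) → ℂ) l • θ l D' := by
        rw [Finset.smul_sum, ← Finset.sum_sub_distrib]
        refine Finset.sum_congr rfl fun l _ => ?_
        rw [sub_smul, mul_smul]
      rw [h3, h10, h2, hx, Algebra.smul_def]
      field_simp
    refine ⟨⟨fun l => c * (Pi.single 0 1 : Fin (a + 1) → ℂ) l -
        (Pi.single j.succ 1 : Fin (a + 1) → ℂ) l, ?_⟩, ?_⟩
    · rw [h1]
      exact mul_ne_zero hc hθD
    · rw [hϑ]
      exact h1
  obtain ⟨s', hs0, hind2⟩ := Pool.Agent.R882.LT.exists_ratios_d (L := K) (K := L) (d := a) hnK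
    (trdeg_adj hind') T ⟨i1, hT0 i1⟩ (fun G hG G' hG' j => by
      obtain ⟨G'', hG''⟩ := exists_lift (L := Ω) hn G'
      have h1 : G'' (algebraMap L Ω (x j)) = 0 := by
        refine der_norm (K := K) G'' _ fun c => ?_
        have hGK : ∀ z : K, G'' (algebraMap K Ω z) = algebraMap K Ω (G z) := by
          intro z
          rw [IsScalarTower.algebraMap_apply K L Ω, hG'', hG',
            ← IsScalarTower.algebraMap_apply K L Ω]
        rw [hGK]
        by_cases h0 : algebraMap ℂ L c - x j = 0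
        · have h2 : algebraMap ℂ Ω c - algebraMap L Ω (x j) = 0 := by
            rw [IsScalarTower.algebraMap_apply ℂ L Ω, ← map_sub, h0, map_zero]
          rw [h2, Algebra.norm_zero, map_zero, map_zero]
        · obtain ⟨i, hi⟩ := hxT j c h0
          obtain ⟨u, hu⟩ : ∃ u, u = Algebra.norm K (algebraMap ℂ L c - x j) := ⟨_, rfl⟩
          have hu0 : u ≠ 0 := by
            rw [hu, Ne, Algebra.norm_eq_zero_iff]
            exact h0
          have h2 : T i = T i1 * u := by
            rw [hT, hT, hi, hi1, map_mul, ← hu]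
            ring
          have h3 := hG i1 i
          rw [h2, G.leibniz] at h3
          simp only [smul_eq_mul] at h3
          have h4 : T i1 ^ 2 * G u = 0 := by linear_combination h3
          have h6 := (mul_eq_zero.1 h4).resolve_left (pow_ne_zero _ (hT0 i1))
          have h7 : Algebra.norm K (algebraMap ℂ Ω c - algebraMap L Ω (x j)) =
              u ^ Module.finrank L Ω := by
            rw [IsScalarTower.algebraMap_apply ℂ L Ω, ← map_sub,
              ← Algebra.norm_norm (R := K) (S := L) (A := Ω), Algebra.norm_algebraMap, map_pow, hu]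
          rw [h7, G.leibniz_pow, h6, smul_zero, smul_zero, map_zero]
      rw [hG''] at h1
      exact (map_eq_zero _).1 h1)
  have hval : ∀ t, pow_form (m * q) y t D = t := by
    intro t
    rw [pow_form, det_one' hD, one_pow, one_mul]
  refine ⟨m * q, Nat.mul_pos hm hq1, fun j => pow_form (m * q) y (T (s' j)), fun l =>
    ⟨pow_form_pluri _ y _, fun P hP G hG => ?_⟩, D, fun l => ?_, ?_⟩
  · rcases hTreg (s' l) P hP G hG with h | h
    · exact Or.inl h
    · refine Or.inr ⟨1, Finset.mem_singleton_self _, one_ne_zero, ?_⟩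
      simp only [Nat.cast_zero, zero_mul, zero_sub]
      exact h
  · change pow_form (m * q) y (T (s' l)) D ≠ 0
    rw [hval]
    exact hT0 _
  · simp only [hval]
    exact hind2

end

section

variable {K L : Type} [Field K] [Field L] [Algebra ℂ K] [Algebra ℂ L]
  [Algebra K L] [IsScalarTower ℂ K L] [FiniteDimensional K L]
  [Algebra.EssFiniteType ℂ K] [Algebra.EssFiniteType ℂ L]

open Pool.Agent.U192.NM (dg pol Lv exists_basis_pol)

/-- **The Kodaira dimension for a map which is injective together with the map to the base.** -/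
theorem kod_inj (E : IntermediateField ℂ L)
    (hKE : IntermediateField.adjoin K (E : Set L) = ⊤) {κ : ℕ} (X : Fin κ → Finset L)
    (hX : IntermediateField.adjoin ℂ (⋃ i, (X i : Set L)) = E)
    {δ : Place ℂ K → ℝ} {n m a : ℕ} (hm : 1 ≤ m) (hn : Algebra.trdeg ℂ L = n)
    {θ : Fin (a + 1) → (Fin n → Derivation ℂ L L) → L} (hθ : ∀ l, IsPluri m (θ l))
    (hpos : ∀ l, ∀ (P : Place ℂ K) (Q : Place ℂ L) (e : ℕ), Over Q P e → Divisorial n Q →
      (∃ z ∈ E, Q.ord z ≠ 0) → ∀ c : ℕ, (∀ z ∈ E, (c : ℤ) ∣ Q.ord z) →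
      ∀ G : Fin n → Derivation ℂ L L, (∀ i, DerReg Q (G i)) → θ l G = 0 ∨
        (m : ℝ) * (c - 1) + (∑ i, 2 * m * ((dg K X i : ℤ) - 1) * pol (X i) Q : ℤ) ≤
          Q.ord (θ l G) + m * e * δ P)
    (hhor : ∀ l, ∀ (P : Place ℂ K) (Q : Place ℂ L) (e : ℕ), Over Q P e → Divisorial n Q →
      (∀ z ∈ E, Q.ord z = 0) → ∀ G : Fin n → Derivation ℂ L L, (∀ i, DerReg Q (G i)) →
      θ l G = 0 ∨ 0 ≤ Q.ord (θ l G) + m * e * δ P)
    {D0 : Fin n → Derivation ℂ L L} (hD0 : θ 0 D0 ≠ 0)
    (hind : AlgebraicIndependent ℂ fun j : Fin a => θ j.succ D0 / θ 0 D0) :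
    PairKod ℂ K n δ a := by
  classical
  have hcK : CharZero K := charZero_of_injective_algebraMap (algebraMap ℂ K).injective
  have hXE : ∀ i, ∀ z ∈ X i, z ∈ E := by
    intro i z hz
    rw [← hX]
    exact IntermediateField.subset_adjoin _ _ (Set.mem_iUnion.2 ⟨i, hz⟩)
  have hE : ∀ z ∈ E, z ∈ Lv K X κ := mem_Lv hX
  have hadj : IntermediateField.adjoin K (E : Set L) ≤ Lv K X κ := by
    rw [IntermediateField.adjoin_le_iff]
    exact hE
  obtain ⟨dd, f, hf⟩ := exists_basis_pol K hXE hE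
  have ht1 : IsScalarTower ℂ (Lv K X κ) L := IsScalarTower.of_algebraMap_eq fun _ => rfl
  refine kod_of_regS (K := K) (M := Lv K X κ) (L := L) f hm hn hθ (fun l => ?_) hD0 hind
  refine regS_of_pos hE hadj hf (fun P Q e hQ hQd hEQ c hc G hG => ?_)
    (fun P Q e hQ hQd hEQ c hc G hG => ?_)
  · rcases hpos l P Q e hQ hQd hEQ c hc G hG with h | h
    · exact Or.inl h
    refine Or.inr ⟨1, Finset.mem_singleton_self _, one_ne_zero, ?_⟩
    rw [Q.ord_one, Int.cast_zero, add_zero]
    exact h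
  · rcases hhor l P Q e hQ hQd hEQ G hG with h | h
    · exact Or.inl h
    refine Or.inr ⟨1, Finset.mem_singleton_self _, one_ne_zero, ?_⟩
    obtain ⟨π, -, hπ⟩ := Q.surj
    have h2 := hc π (by
      rw [hKE]
      exact IntermediateField.mem_top)
    rw [hπ] at h2
    have h3 : c = 1 := Nat.dvd_one.1 (by exact_mod_cast h2)
    rw [h3, Q.ord_one]
    simpa using h

end

end Pool.Agent.U192.PE
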