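import Pool.Agent.U192.PE.Form
import Pool.Agent.U192.PN.Main

/-!
Norms of pluricanonical forms: the norm inequality.
-/

set_option autoImplicit false
set_option linter.overlappingInstances false
set_option linter.unusedSectionVars false

open FF Pool.Agent.W602.GT Pool.Agent.W603.LV Pool.Agent.W619.PQ Pool.Agent.Y172
open Pool.Agent.W619.TW (HasIndep)
open Pool.Agent.Y174 (PairSec PairKod PairNum IsPull IsPullFib LiesOn)

namespace Pool.Agent.U192.PE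

open Pool.Agent.U192.NM (dg pol Lv exists_basis_pol)
open Pool.Agent.U192.PN (HorReg PairNeg)

variable {K L : Type} [Field K] [Field L] [Algebra ℂ K] [Algebra ℂ L]
  [Algebra K L] [IsScalarTower ℂ K L] [FiniteDimensional K L]
  [Algebra.EssFiniteType ℂ K] [Algebra.EssFiniteType ℂ L]

/-- the regularity relative to the basis of monomials -/
theorem regS_of_pos {E : IntermediateField ℂ L} {κ : ℕ} {X : Fin κ → Finset L}
    (hE : ∀ z ∈ E, z ∈ Lv K X κ)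
    (hadj : IntermediateField.adjoin K (E : Set L) ≤ Lv K X κ) {S : Finset L} {dd : ℕ}
    {f : Module.Basis (Fin dd) K (Lv K X κ)}
    (hf : ∀ j, ((f j : Lv K X κ) : L) ∈ E ∧
      ∀ Q : Place ℂ L, Ge Q (-Pool.Agent.U192.NM.wt K X κ Q) ((f j : Lv K X κ) : L))
    {δ : Place ℂ K → ℝ} {n m : ℕ} {θ : (Fin n → Derivation ℂ L L) → L}
    (hpos : ∀ (P : Place ℂ K) (Q : Place ℂ L) (e : ℕ), Over Q P e → Divisorial n Q →
      (∃ z ∈ E, Q.ord z ≠ 0) → ∀ c : ℕ, (∀ z ∈ E, (c : ℤ) ∣ Q.ord z) →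
      ∀ G : Fin n → Derivation ℂ L L, (∀ i, DerReg Q (G i)) → θ G = 0 ∨ ∃ s ∈ S, s ≠ 0 ∧
        (m : ℝ) * (c - 1) + (∑ i, 2 * m * ((dg K X i : ℤ) - 1) * pol (X i) Q : ℤ) + Q.ord s ≤
          Q.ord (θ G) + m * e * δ P)
    (hhor : ∀ (P : Place ℂ K) (Q : Place ℂ L) (e : ℕ), Over Q P e → Divisorial n Q →
      (∀ z ∈ E, Q.ord z = 0) →
      ∀ c : ℕ, (∀ z ∈ IntermediateField.adjoin K (E : Set L), (c : ℤ) ∣ Q.ord z) →
      ∀ G : Fin n → Derivation ℂ L L, (∀ i, DerReg Q (G i)) → θ G = 0 ∨ ∃ s ∈ S, s ≠ 0 ∧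
        (m : ℝ) * (c - 1) + Q.ord s ≤ Q.ord (θ G) + m * e * δ P) :
    RegS δ (Lv K X κ) n m S (fun j => algebraMap (Lv K X κ) L (f j)) θ := by
  intro P Q e hQ hQd c hc G hG
  have hwt : ∀ Q : Place ℂ L, ∑ i, 2 * (m : ℤ) * ((dg K X i : ℤ) - 1) * pol (X i) Q =
      2 * m * Pool.Agent.U192.NM.wt K X κ Q := by
    intro Q
    unfold Pool.Agent.U192.NM.wt
    rw [Finset.mul_sum]
    refine Finset.sum_congr rfl fun i _ => ?_
    rw [if_pos i.2]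
    ring
  by_cases h0 : θ G = 0
  · exact Or.inl h0
  right
  by_cases hEQ : ∃ z ∈ E, Q.ord z ≠ 0
  · obtain ⟨s, hs, hs0, h1⟩ := (hpos P Q e hQ hQd hEQ c (fun z hz => hc ⟨z, hE z hz⟩)
      G hG).resolve_left h0
    refine ⟨s, hs, hs0, fun j => ?_⟩
    rw [hwt] at h1
    have h2 : algebraMap (Lv K X κ) L (f j) ≠ 0 := by
      rw [Ne, map_eq_zero]
      exact f.ne_zero j
    have h3 := ((hf j).2 Q).resolve_left h2
    have h3r : -((Pool.Agent.U192.NM.wt K X κ Q : ℤ) : ℝ) ≤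
        Q.ord (algebraMap (Lv K X κ) L (f j)) := by
      exact_mod_cast h3
    have h4 := mul_le_mul_of_nonneg_left h3r (by positivity : (0 : ℝ) ≤ 2 * m)
    push_cast at h1
    linarith
  · push Not at hEQ
    obtain ⟨s, hs, hs0, h1⟩ := (hhor P Q e hQ hQd hEQ c (fun z hz => hc ⟨z, hadj hz⟩)
      G hG).resolve_left h0
    refine ⟨s, hs, hs0, fun j => ?_⟩
    have h2 : Q.ord (algebraMap (Lv K X κ) L (f j)) = 0 := hEQ _ (hf j).1
    change _ ≤ (Q.ord (θ G) : ℝ) + 2 * m * Q.ord (algebraMap (Lv K X κ) L (f j)) + m * e * δ P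
    rw [h2]
    simp only [Int.cast_zero, mul_zero, add_zero]
    exact h1

theorem mem_Lv {E : IntermediateField ℂ L} {κ : ℕ} {X : Fin κ → Finset L}
    (hX : IntermediateField.adjoin ℂ (⋃ i, (X i : Set L)) = E) : ∀ z ∈ E, z ∈ Lv K X κ := by
  have h1 : E ≤ (Lv K X κ).restrictScalars ℂ := by
    rw [← hX, IntermediateField.adjoin_le_iff]
    intro z hz
    obtain ⟨i, hi⟩ := Set.mem_iUnion.1 hz
    have h2 : z ∈ Lv K X κ := by
      unfold Lv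
      exact IntermediateField.subset_adjoin _ _ ⟨i, i.2, hi⟩
    exact h2
  exact fun z hz => h1 hz

/-- **The norm inequality**, general form. At the places where the base with the function field `E`
is constant, `c` is a common divisor of the orders of the functions in the field generated by `K`
and `E`. -/
theorem norm_ineq_gen (E : IntermediateField ℂ L) {κ : ℕ} (X : Fin κ → Finset L)
    (hX : IntermediateField.adjoin ℂ (⋃ i, (X i : Set L)) = E) (S : Finset L)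
    (hS : ∃ s ∈ S, s ≠ 0) :
    ∃ Z : Finset K, (S = {1} → Z = {1}) ∧
    ∀ (δ : Place ℂ K → ℝ) (n m N : ℕ), Algebra.trdeg ℂ L = n →
    ∀ θ : Fin N → (Fin n → Derivation ℂ L L) → L, (∀ l, IsPluri m (θ l)) →
    (∀ l, ∀ (P : Place ℂ K) (Q : Place ℂ L) (e : ℕ), Over Q P e → Divisorial n Q →
      (∃ z ∈ E, Q.ord z ≠ 0) → ∀ c : ℕ, (∀ z ∈ E, (c : ℤ) ∣ Q.ord z) →
      ∀ G : Fin n → Derivation ℂ L L, (∀ i, DerReg Q (G i)) → θ l G = 0 ∨ ∃ s ∈ S, s ≠ 0 ∧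
        (m : ℝ) * (c - 1) + (∑ i, 2 * m * ((dg K X i : ℤ) - 1) * pol (X i) Q : ℤ) + Q.ord s ≤
          Q.ord (θ l G) + m * e * δ P) →
    (∀ l, ∀ (P : Place ℂ K) (Q : Place ℂ L) (e : ℕ), Over Q P e → Divisorial n Q →
      (∀ z ∈ E, Q.ord z = 0) →
      ∀ c : ℕ, (∀ z ∈ IntermediateField.adjoin K (E : Set L), (c : ℤ) ∣ Q.ord z) →
      ∀ G : Fin n → Derivation ℂ L L, (∀ i, DerReg Q (G i)) → θ l G = 0 ∨ ∃ s ∈ S, s ≠ 0 ∧
        (m : ℝ) * (c - 1) + Q.ord s ≤ Q.ord (θ l G) + m * e * δ P) →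
    LinearIndependent ℂ θ →
    HasIndep ℂ K n N (PairSec ℂ K n δ Z (m * Module.finrank K L) 1) := by
  classical
  have hcK : CharZero K := charZero_of_injective_algebraMap (algebraMap ℂ K).injective
  have hXE : ∀ i, ∀ z ∈ X i, z ∈ E := by
    intro i z hz
    rw [← hX]
    exact IntermediateField.subset_adjoin _ _ (Set.mem_iUnion.2 ⟨i, hz⟩)
  have hE : ∀ z ∈ E, z ∈ Lv K X κ := mem_Lv hX
  have hadj : IntermediateField.adjoin K (E : Set L) ≤ Lv K X κ := by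
    rw [IntermediateField.adjoin_le_iff]
    exact hE
  obtain ⟨dd, f, hf⟩ := exists_basis_pol K hXE hE
  have ht1 : IsScalarTower ℂ (Lv K X κ) L := IsScalarTower.of_algebraMap_eq fun _ => rfl
  obtain ⟨Z, hZS, hZ⟩ := indep_of_norm (K := K) (M := Lv K X κ) (L := L) f S hS
  exact ⟨Z, hZS, fun δ n m N hn θ hθ hpos hhor hli => hZ δ n m N hn θ hθ
    (fun l => regS_of_pos hE hadj hf (hpos l) (hhor l)) hli⟩

/-- **The norm inequality.** -/
theorem norm_ineq {κ : ℕ} (X : Fin κ → Finset L)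
    (hX : IntermediateField.adjoin ℂ (⋃ i, (X i : Set L)) = ⊤) (S : Finset L)
    (hS : ∃ s ∈ S, s ≠ 0) :
    ∃ Z : Finset K, (S = {1} → Z = {1}) ∧
    ∀ (δ : Place ℂ K → ℝ) (n m N : ℕ), Algebra.trdeg ℂ L = n →
    ∀ θ : Fin N → (Fin n → Derivation ℂ L L) → L, (∀ l, IsPluri m (θ l)) →
    (∀ l, ∀ (P : Place ℂ K) (Q : Place ℂ L) (e : ℕ), Over Q P e → Divisorial n Q →
      ∀ G : Fin n → Derivation ℂ L L, (∀ i, DerReg Q (G i)) → θ l G = 0 ∨ ∃ s ∈ S, s ≠ 0 ∧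
        ((∑ i, 2 * m * ((dg K X i : ℤ) - 1) * pol (X i) Q : ℤ) : ℝ) + Q.ord s ≤
          Q.ord (θ l G) + m * e * δ P) →
    LinearIndependent ℂ θ →
    HasIndep ℂ K n N (PairSec ℂ K n δ Z (m * Module.finrank K L) 1) := by
  obtain ⟨Z, hZS, hZ⟩ := norm_ineq_gen (K := K) (⊤ : IntermediateField ℂ L) X hX S hS
  refine ⟨Z, hZS, fun δ n m N hn θ hθ hpos hli => hZ δ n m N hn θ hθ
    (fun l P Q e hQ hQd _ c hc G hG => ?_) (fun l P Q e _ _ h => ?_) hli⟩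
  · rcases hpos l P Q e hQ hQd G hG with h1 | ⟨s, hs, hs0, h1⟩
    · exact Or.inl h1
    refine Or.inr ⟨s, hs, hs0, ?_⟩
    obtain ⟨π, -, hπ⟩ := Q.surj
    have h2 := hc π IntermediateField.mem_top
    rw [hπ] at h2
    have h3 : c = 1 := Nat.dvd_one.1 (by exact_mod_cast h2)
    rw [h3]
    simpa using h1
  · obtain ⟨π, -, hπ⟩ := Q.surj
    have h2 := h π IntermediateField.mem_top
    omega

/-- **The norm inequality over a base**, with the condition at the horizontal places. -/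
theorem norm_ineq_base (E : IntermediateField ℂ L) {κ : ℕ} (X : Fin κ → Finset L)
    (hX : IntermediateField.adjoin ℂ (⋃ i, (X i : Set L)) = E) (S : Finset L)
    (hSE : ∀ s ∈ S, s ∈ E) (hS : ∃ s ∈ S, s ≠ 0) :
    ∃ Z : Finset K, (S = {1} → Z = {1}) ∧
    ∀ (δ : Place ℂ K → ℝ) (n m N : ℕ), Algebra.trdeg ℂ L = n →
    ∀ θ : Fin N → (Fin n → Derivation ℂ L L) → L, (∀ l, IsPluri m (θ l)) →
    (∀ l, ∀ (P : Place ℂ K) (Q : Place ℂ L) (e : ℕ), Over Q P e → Divisorial n Q →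
      (∃ z ∈ E, Q.ord z ≠ 0) → ∀ c : ℕ, (∀ z ∈ E, (c : ℤ) ∣ Q.ord z) →
      ∀ G : Fin n → Derivation ℂ L L, (∀ i, DerReg Q (G i)) → θ l G = 0 ∨ ∃ s ∈ S, s ≠ 0 ∧
        (m : ℝ) * (c - 1) + (∑ i, 2 * m * ((dg K X i : ℤ) - 1) * pol (X i) Q : ℤ) + Q.ord s ≤
          Q.ord (θ l G) + m * e * δ P) →
    (∀ l, HorReg δ E n m (θ l)) →
    LinearIndependent ℂ θ →
    HasIndep ℂ K n N (PairSec ℂ K n δ Z (m * Module.finrank K L) 1) := by
  obtain ⟨Z, hZS, hZ⟩ := norm_ineq_gen (K := K) E X hX S hS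
  refine ⟨Z, hZS, fun δ n m N hn θ hθ hpos hh hli => hZ δ n m N hn θ hθ hpos
    (fun l P Q e hQ hQd hE c hc G hG => ?_) hli⟩
  rcases hh l P Q e hQ hQd hE G hG with h1 | h1
  · exact Or.inl h1
  obtain ⟨s, hs, hs0⟩ := hS
  refine Or.inr ⟨s, hs, hs0, ?_⟩
  rw [hE s (hSE s hs), Int.cast_zero, add_zero]
  refine le_trans ?_ h1
  obtain ⟨t, ht0, ht⟩ := P.surj
  have h2 := hc (algebraMap K L t) (IntermediateField.algebraMap_mem _ t)
  rw [hQ.2, ht, mul_one] at h2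
  have h3 : c ≤ e := Nat.le_of_dvd hQ.1 (by exact_mod_cast h2)
  have h4 : (c : ℝ) ≤ e := by exact_mod_cast h3
  exact mul_le_mul_of_nonneg_left (by linarith) (Nat.cast_nonneg _)

/-- change of the finite set -/
theorem sec_mono {δ : Place ℂ K → ℝ} {n m N : ℕ} {Z Z' : Finset K}
    (h : ∀ P : Place ℂ K, ∀ z ∈ Z, z ≠ 0 → ∃ z' ∈ Z', z' ≠ 0 ∧ P.ord z' ≤ P.ord z)
    (hi : HasIndep ℂ K n N (PairSec ℂ K n δ Z m 1)) :
    HasIndep ℂ K n N (PairSec ℂ K n δ Z' m 1) := by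
  obtain ⟨ω, hω, hs⟩ := hi
  refine ⟨ω, hω, fun l => ⟨(hs l).1, fun v hv D hD => ?_⟩⟩
  rcases (hs l).2 v hv D hD with h1 | ⟨s, hs1, hs0, h1⟩
  · exact Or.inl h1
  · obtain ⟨s', hs', hs0', h2⟩ := h v s hs1 hs0
    refine Or.inr ⟨s', hs', hs0', ?_⟩
    have h3 : (v.ord s' : ℝ) ≤ v.ord s := by exact_mod_cast h2
    push_cast at h1 ⊢
    linarith

/-- **The norm inequality for a map which is injective together with the map to the base.** Here `K`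
and `E` generate `L`. -/
theorem norm_ineq_inj (E : IntermediateField ℂ L)
    (hKE : IntermediateField.adjoin K (E : Set L) = ⊤) {κ : ℕ} (X : Fin κ → Finset L)
    (hX : IntermediateField.adjoin ℂ (⋃ i, (X i : Set L)) = E) (S : Finset L)
    (hS : ∃ s ∈ S, s ≠ 0) :
    ∃ Z : Finset K, (S = {1} → Z = {1}) ∧
    ∀ (δ : Place ℂ K → ℝ) (n m N : ℕ), Algebra.trdeg ℂ L = n →
    ∀ θ : Fin N → (Fin n → Derivation ℂ L L) → L, (∀ l, IsPluri m (θ l)) →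
    (∀ l, ∀ (P : Place ℂ K) (Q : Place ℂ L) (e : ℕ), Over Q P e → Divisorial n Q →
      (∃ z ∈ E, Q.ord z ≠ 0) → ∀ c : ℕ, (∀ z ∈ E, (c : ℤ) ∣ Q.ord z) →
      ∀ G : Fin n → Derivation ℂ L L, (∀ i, DerReg Q (G i)) → θ l G = 0 ∨ ∃ s ∈ S, s ≠ 0 ∧
        (m : ℝ) * (c - 1) + (∑ i, 2 * m * ((dg K X i : ℤ) - 1) * pol (X i) Q : ℤ) + Q.ord s ≤
          Q.ord (θ l G) + m * e * δ P) →
    (∀ l, ∀ (P : Place ℂ K) (Q : Place ℂ L) (e : ℕ), Over Q P e → Divisorial n Q →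
      (∀ z ∈ E, Q.ord z = 0) → ∀ G : Fin n → Derivation ℂ L L, (∀ i, DerReg Q (G i)) →
      θ l G = 0 ∨ ∃ s ∈ S, s ≠ 0 ∧ (Q.ord s : ℝ) ≤ Q.ord (θ l G) + m * e * δ P) →
    LinearIndependent ℂ θ →
    HasIndep ℂ K n N (PairSec ℂ K n δ Z (m * Module.finrank K L) 1) := by
  obtain ⟨Z, hZS, hZ⟩ := norm_ineq_gen (K := K) E X hX S hS
  refine ⟨Z, hZS, fun δ n m N hn θ hθ hpos hh hli => hZ δ n m N hn θ hθ hpos
    (fun l P Q e hQ hQd hE c hc G hG => ?_) hli⟩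
  rcases hh l P Q e hQ hQd hE G hG with h1 | ⟨s, hs, hs0, h1⟩
  · exact Or.inl h1
  refine Or.inr ⟨s, hs, hs0, ?_⟩
  obtain ⟨π, -, hπ⟩ := Q.surj
  have h2 := hc π (by
    rw [hKE]
    exact IntermediateField.mem_top)
  rw [hπ] at h2
  have h3 : c = 1 := Nat.dvd_one.1 (by exact_mod_cast h2)
  rw [h3]
  simpa using h1

end Pool.Agent.U192.PE
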