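import Pool.Agent.U192.PN.MainProd
import Pool.Agent.U192.PE.Kod

/-!
Products of sections of pairs with twists on the factors of a product of two varieties.
-/

set_option autoImplicit false
set_option linter.overlappingInstances false
set_option linter.unusedSectionVars false

open FF IntermediateField Pool.Agent.W619.PQ Pool.Agent.W603.LV Pool.Agent.Y172
open Pool.Agent.W602.GT (Divisorial DerReg IsPluri KodGe)
open Pool.Agent.W619.TW (HasIndep)
open Pool.Agent.Y174 (PairSec PairKod PairNum IsPull IsPullFib LiesOn)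
open Pool.Agent.U192.PB (pf cz pf_change pf_pluri ge_det_col indep_over)
open Pool.Agent.U192.PN (exists_chart' det_ge_one det_ge_two)

namespace Pool.Agent.U192.PE

section

variable {L : Type} [Field L] [Algebra ℂ L] {U T : IntermediateField ℂ L} {d n : ℕ}

/-- **Products of sections.** -/
theorem prod_tw [Algebra.EssFiniteType ℂ U] [Algebra.EssFiniteType ℂ T]
    (hU : Algebra.trdeg ℂ U = d)
    (hT : Algebra.trdeg ℂ T = n) (hL : Algebra.trdeg ℂ L = (d + n : ℕ)) {m : ℕ}
    {α : (Fin d → Derivation ℂ U U) → U} (hα : IsPluri m α)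
    {β : (Fin n → Derivation ℂ T T) → T} (hβ : IsPluri m β) {w : Place ℂ U → ℤ}
    {SU : Finset U} {ST : Finset T} (hSU : ∃ s ∈ SU, s ≠ 0) (hST : ∃ s ∈ ST, s ≠ 0)
    (hαw : ∀ P : Place ℂ U, Divisorial d P → ∀ G : Fin d → Derivation ℂ U U,
      (∀ i, DerReg P (G i)) → α G = 0 ∨ ∃ s ∈ SU, s ≠ 0 ∧ w P + P.ord s ≤ P.ord (α G))
    {δT : Place ℂ T → ℝ} (hδT : ∀ P, Divisorial n P → δT P ≤ 1)
    (hβr : ∀ P : Place ℂ T, Divisorial n P → ∀ G : Fin n → Derivation ℂ T T,
      (∀ i, DerReg P (G i)) → β G = 0 ∨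
        ∃ s ∈ ST, s ≠ 0 ∧ (P.ord s : ℝ) - m * δT P ≤ (P.ord (β G) : ℝ))
    {x : Fin d → U} {t : Fin n → T} {Ex : Fin d → Derivation ℂ U U}
    {Et : Fin n → Derivation ℂ T T} (hx : IsTranscendenceBasis ℂ x)
    (ht : IsTranscendenceBasis ℂ t) (hEx : ∀ i j, Ex i (x j) = if i = j then 1 else 0)
    (hEt : ∀ i j, Et i (t j) = if i = j then 1 else 0)
    {Q : Place ℂ L} (hQ : Divisorial (d + n) Q) {G : Fin (d + n) → Derivation ℂ L L}
    (hG : ∀ i, DerReg Q (G i)) (hne : pf x t m (α Ex) (β Et) G ≠ 0) :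
    ∃ s ∈ SU, s ≠ 0 ∧ ∃ s' ∈ ST, s' ≠ 0 ∧
    ((∃ (P : Place ℂ U) (e : ℕ), Over Q P e ∧ Divisorial d P ∧
      (m : ℝ) * (e - 1) + e * w P + (Q.ord (s : L) + Q.ord (s' : L)) ≤
        Q.ord (pf x t m (α Ex) (β Et) G)) ∨
    ((∀ z ∈ U, Q.ord z = 0) ∧
      (((∀ z ∈ T, Q.ord z = 0) ∧ (Q.ord (s : L) + Q.ord (s' : L) : ℝ) ≤
        Q.ord (pf x t m (α Ex) (β Et) G)) ∨
      ∃ (P : Place ℂ T) (e : ℕ), Over Q P e ∧ Divisorial n P ∧
        (m : ℝ) * (e - 1) - m * e * δT P + (Q.ord (s : L) + Q.ord (s' : L)) ≤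
          Q.ord (pf x t m (α Ex) (β Et) G)))) := by
  obtain ⟨y, E, hy, hE, hyr, hcase⟩ := exists_chart' U hU hL hQ
  obtain ⟨y', E', hy', hE', hyr', hcase'⟩ := exists_chart' T hT hL hQ
  rw [pf_change hx ht hEx hEt hy hy' hE hE' hα hβ] at hne ⊢
  unfold pf at hne ⊢
  obtain ⟨δ, hδ⟩ : ∃ δ, δ = (Matrix.of fun i j => G i (cz y y' j)).det := ⟨_, rfl⟩
  rw [← hδ] at hne ⊢
  have hαne : (α E : L) ≠ 0 := fun h => hne (by rw [h]; ring)
  have hβne : (β E' : L) ≠ 0 := fun h => hne (by rw [h]; ring)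
  have hαne' : α E ≠ 0 := fun h => hαne (by rw [h]; rfl)
  have hβne' : β E' ≠ 0 := fun h => hβne (by rw [h]; rfl)
  have hprod : (α E : L) * (β E' : L) ≠ 0 := mul_ne_zero hαne hβne
  have hδne : δ ^ m ≠ 0 := fun h => hne (by rw [h, zero_mul])
  have hord : Q.ord (δ ^ m * ((α E : L) * (β E' : L))) =
      Q.ord (δ ^ m) + (Q.ord (α E : L) + Q.ord (β E' : L)) := by
    rw [Q.ord_mul hδne hprod, Q.ord_mul hαne hβne]
  have hcz1 : ∀ l : Fin d, cz y y' (Fin.castAdd n l) = (y l : L) := fun l => Fin.append_left _ _ _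
  have hcz2 : ∀ l : Fin n, cz y y' (Fin.natAdd d l) = (y' l : L) := fun l =>
    Fin.append_right _ _ _
  have hz : ∀ i j, Ge Q 0 (G i (cz y y' j)) := by
    intro i j
    refine Fin.addCases (fun l => ?_) (fun l => ?_) j
    · rw [hcz1]
      exact hG i _ (hyr l)
    · rw [hcz2]
      exact hG i _ (hyr' l)
  have hm0 : (0 : ℝ) ≤ m := Nat.cast_nonneg m
  -- the determinant
  have hdet : ∀ c : ℤ, Ge Q c δ → (m : ℝ) * c ≤ Q.ord (δ ^ m) := by
    intro c hc
    have h1 := (hc.pow m).resolve_left hδne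
    exact_mod_cast h1
  rcases hcase with hU0 | ⟨P, e, i0, hP, hPd, hPE, hi0⟩
  · obtain ⟨s, hs, hs0⟩ := hSU
    have hsQ : Q.ord (s : L) = 0 := hU0 _ s.2
    refine ⟨s, hs, hs0, ?_⟩
    have h1 : Q.ord (α E : L) = 0 := hU0 _ (α E).2
    rcases hcase' with hT0 | ⟨P', e', i0', hP', hPd', hPE', hi0'⟩
    · obtain ⟨s', hs', hs0'⟩ := hST
      refine ⟨s', hs', hs0', Or.inr ⟨hU0, Or.inl ⟨hT0, ?_⟩⟩⟩
      have hsQ' : Q.ord (s' : L) = 0 := hT0 _ s'.2
      have h2 : Q.ord (β E' : L) = 0 := hT0 _ (β E').2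
      have h3 : Ge Q 0 δ := by
        rw [hδ]
        exact ge_det Q _ fun i j => hz i j
      have h4 := hdet _ h3
      rw [hord, h1, h2, hsQ, hsQ']
      push_cast at h4 ⊢
      linarith
    · obtain ⟨s', hs', hs0', h6⟩ := (hβr P' hPd' E' hPE').resolve_left hβne'
      refine ⟨s', hs', hs0', Or.inr ⟨hU0, Or.inr ⟨P', e', hP', hPd', ?_⟩⟩⟩
      have h3 : Ge Q ((e' : ℤ) - 1) δ := by
        rw [hδ]
        refine det_ge_one Q _ (Fin.natAdd d i0') _ (fun i j => hz i j) fun i => ?_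
        rw [Matrix.of_apply, hcz2]
        have h4 := ge_der_reg (hG i) (y' i0' : L)
        rwa [hi0'] at h4
      have h4 := hdet _ h3
      have h5 : (Q.ord (β E' : L) : ℝ) = e' * P'.ord (β E') := by
        have : Q.ord (β E' : L) = e' * P'.ord (β E') := hP'.2 _
        exact_mod_cast this
      have h5' : (Q.ord (s' : L) : ℝ) = e' * P'.ord s' := by
        have : Q.ord (s' : L) = e' * P'.ord s' := hP'.2 _
        exact_mod_cast this
      have h7 := mul_le_mul_of_nonneg_left h6 (Nat.cast_nonneg (α := ℝ) e')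
      rw [hord, h1, hsQ]
      push_cast at h4 ⊢
      rw [h5, h5']
      linarith
  · obtain ⟨s, hs, hs0, h2⟩ := (hαw P hPd E hPE).resolve_left hαne'
    refine ⟨s, hs, hs0, ?_⟩
    have h1 : (Q.ord (α E : L) : ℝ) = e * P.ord (α E) := by
      have : Q.ord (α E : L) = e * P.ord (α E) := hP.2 _
      exact_mod_cast this
    have h1' : (Q.ord (s : L) : ℝ) = e * P.ord s := by
      have : Q.ord (s : L) = e * P.ord s := hP.2 _
      exact_mod_cast this
    have h2r : (w P : ℝ) + P.ord s ≤ P.ord (α E) := by exact_mod_cast h2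
    have h2' := mul_le_mul_of_nonneg_left h2r (Nat.cast_nonneg (α := ℝ) e)
    rcases hcase' with hT0 | ⟨P', e', i0', hP', hPd', hPE', hi0'⟩
    · obtain ⟨s', hs', hs0'⟩ := hST
      refine ⟨s', hs', hs0', Or.inl ⟨P, e, hP, hPd, ?_⟩⟩
      have hsQ' : Q.ord (s' : L) = 0 := hT0 _ s'.2
      have h3 : Q.ord (β E' : L) = 0 := hT0 _ (β E').2
      have h4 : Ge Q ((e : ℤ) - 1) δ := by
        rw [hδ]
        refine det_ge_one Q _ (Fin.castAdd n i0) _ (fun i j => hz i j) fun i => ?_
        rw [Matrix.of_apply, hcz1]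
        have h4 := ge_der_reg (hG i) (y i0 : L)
        rwa [hi0] at h4
      have h5 := hdet _ h4
      rw [hord, h3, hsQ']
      push_cast at h5 ⊢
      rw [h1, h1']
      linarith
    · obtain ⟨s', hs', hs0', h7⟩ := (hβr P' hPd' E' hPE').resolve_left hβne'
      refine ⟨s', hs', hs0', Or.inl ⟨P, e, hP, hPd, ?_⟩⟩
      have h4 : Ge Q ((e : ℤ) + e' - 1) δ := by
        rw [hδ]
        refine det_ge_two (cz y y') G hG hz (j1 := Fin.castAdd n i0) (j2 := Fin.natAdd d i0')
          ?_ hP.1 hP'.1 ?_ ?_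
        · intro h
          have h5 := congrArg Fin.val h
          rw [Fin.val_castAdd, Fin.val_natAdd] at h5
          have := i0.2
          omega
        · rw [hcz1]
          exact hi0
        · rw [hcz2]
          exact hi0'
      have h5 := hdet _ h4
      have h6 : (Q.ord (β E' : L) : ℝ) = e' * P'.ord (β E') := by
        have : Q.ord (β E' : L) = e' * P'.ord (β E') := hP'.2 _
        exact_mod_cast this
      have h6' : (Q.ord (s' : L) : ℝ) = e' * P'.ord s' := by
        have : Q.ord (s' : L) = e' * P'.ord s' := hP'.2 _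
        exact_mod_cast this
      have h8 := mul_le_mul_of_nonneg_left h7 (Nat.cast_nonneg (α := ℝ) e')
      have h9 : (m : ℝ) * e' * δT P' ≤ m * e' * 1 :=
        mul_le_mul_of_nonneg_left (hδT P' hPd') (by positivity)
      rw [hord]
      push_cast at h5 ⊢
      rw [h1, h6, h1', h6']
      linarith

/-- products of linearly independent functions on the factors -/
theorem indep_mul (hsup : U ⊔ T = ⊤) (hU : Algebra.trdeg ℂ U = d) (hT : Algebra.trdeg ℂ T = n)
    (hL : Algebra.trdeg ℂ L = (d + n : ℕ)) {N1 N2 : ℕ} {a : Fin N1 → U} {b : Fin N2 → T}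
    (ha : LinearIndependent ℂ a) (hb : LinearIndependent ℂ b) :
    LinearIndependent ℂ fun p : Fin N1 × Fin N2 => (a p.1 : L) * (b p.2 : L) := by
  classical
  have h1 := indep_over hsup hU hT hL ha
  rw [Fintype.linearIndependent_iff]
  intro g hg p
  have h2 : ∑ i, (∑ j, g (i, j) • b j) • (a i : L) = 0 := by
    rw [← hg, Fintype.sum_prod_type]
    refine Finset.sum_congr rfl fun i _ => ?_
    rw [Finset.sum_smul]
    refine Finset.sum_congr rfl fun j _ => ?_
    change ((g (i, j) • b j : T) : L) * (a i : L) = g (i, j) • ((a i : L) * (b j : L))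
    rw [Algebra.smul_def (g (i, j)) ((a i : L) * (b j : L))]
    have h3 : ((g (i, j) • b j : T) : L) = algebraMap ℂ L (g (i, j)) * (b j : L) := by
      rw [Algebra.smul_def]
      rfl
    rw [h3]
    ring
  have h3 := Fintype.linearIndependent_iff.1 h1 (fun i => ∑ j, g (i, j) • b j) h2 p.1
  exact Fintype.linearIndependent_iff.1 hb (fun j => g (p.1, j)) h3 p.2

/-- algebraic independence over the other factor -/
theorem ai_over (hsup : U ⊔ T = ⊤) (hU : Algebra.trdeg ℂ U = d) (hT : Algebra.trdeg ℂ T = n)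
    (hL : Algebra.trdeg ℂ L = (d + n : ℕ)) {a : ℕ} {x : Fin a → U}
    (hx : AlgebraicIndependent ℂ x) : AlgebraicIndependent T fun i => (x i : L) := by
  classical
  have h1 : LinearIndependent ℂ fun e : Fin a →₀ ℕ => ∏ i, x i ^ e i := by
    rw [linearIndependent_iff']
    intro s g hg i hi
    have h2 : MvPolynomial.aeval x (∑ e ∈ s, MvPolynomial.monomial e (g e)) = 0 := by
      rw [map_sum, ← hg]
      refine Finset.sum_congr rfl fun e _ => ?_
      rw [MvPolynomial.aeval_monomial, Algebra.smul_def, Finsupp.prod_fintype]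
      intro i
      exact pow_zero _
    have h3 := (algebraicIndependent_iff.1 hx) _ h2
    have h4 := congrArg (MvPolynomial.coeff i) h3
    rw [MvPolynomial.coeff_sum, MvPolynomial.coeff_zero, Finset.sum_eq_single i] at h4
    · rwa [MvPolynomial.coeff_monomial, if_pos rfl] at h4
    · intro b _ hb
      rw [MvPolynomial.coeff_monomial, if_neg hb]
    · intro h
      exact absurd hi h
  have h2 := indep_over hsup hU hT hL h1
  rw [algebraicIndependent_iff]
  intro p hp
  refine MvPolynomial.ext _ _ fun e => ?_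
  rw [MvPolynomial.coeff_zero]
  by_cases he : e ∈ p.support
  · refine linearIndependent_iff'.1 h2 p.support (fun e => MvPolynomial.coeff e p) ?_ e he
    rw [MvPolynomial.aeval_def, MvPolynomial.eval₂_eq'] at hp
    rw [← hp]
    refine Finset.sum_congr rfl fun e _ => ?_
    rw [Algebra.smul_def]
    congr 1
    push_cast
    rfl
  · exact MvPolynomial.notMem_support_iff.1 he

/-- the algebraic independence of functions on the two factors -/
theorem ai_append (hsup : U ⊔ T = ⊤) (hU : Algebra.trdeg ℂ U = d) (hT : Algebra.trdeg ℂ T = n)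
    (hL : Algebra.trdeg ℂ L = (d + n : ℕ)) {a b : ℕ} {x : Fin a → U} {t : Fin b → T}
    (hx : AlgebraicIndependent ℂ x) (ht : AlgebraicIndependent ℂ t) :
    AlgebraicIndependent ℂ (Fin.append (fun i => (x i : L)) fun j => (t j : L)) := by
  have h1 := ai_over hsup hU hT hL hx
  have h2 := ht.sumElim_comp h1
  have h3 : (Fin.append (fun i => (x i : L)) fun j => (t j : L)) =
      Sum.elim (fun i => (x i : L)) (algebraMap T L ∘ t) ∘ finSumFinEquiv.symm := by
    funext i
    refine Fin.addCases (fun l => ?_) (fun l => ?_) i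
    · simp
    · simp
  rw [h3]
  exact h2.comp _ (Equiv.injective _)

end

end Pool.Agent.U192.PE
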